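import Mathlib

set_option autoImplicit false

namespace Pool.Agent.InvC4

open Real

/-- the cubic Taylor polynomial is a lower bound of `exp` -/
theorem cubic_le_exp (x : ℝ) : 1 + x + x ^ 2 / 2 + x ^ 3 / 6 ≤ exp x := by
  -- second derivative argument
  have h2 : ∀ y : ℝ, 0 ≤ exp y - (1 + y) := fun y => by
    have := add_one_le_exp y
    linarith
  have d1 : ∀ y : ℝ, HasDerivAt (fun y => exp y - (1 + y + y ^ 2 / 2)) (exp y - (1 + y)) y := by
    intro y
    have h := (hasDerivAt_exp y).sub (((hasDerivAt_const y (1 : ℝ)).add (hasDerivAt_id y)).add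
      ((hasDerivAt_pow 2 y).div_const 2))
    refine h.congr_deriv ?_
    simp
  have m1 : Monotone (fun y => exp y - (1 + y + y ^ 2 / 2)) :=
    monotone_of_hasDerivAt_nonneg d1 h2
  have s1 : ∀ y : ℝ, 0 ≤ y → 0 ≤ exp y - (1 + y + y ^ 2 / 2) := by
    intro y hy
    have := m1 hy
    simpa using this
  have s2 : ∀ y : ℝ, y ≤ 0 → exp y - (1 + y + y ^ 2 / 2) ≤ 0 := by
    intro y hy
    have := m1 hy
    simpa using this
  have d2 : ∀ y : ℝ, HasDerivAt (fun y => exp y - (1 + y + y ^ 2 / 2 + y ^ 3 / 6))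
      (exp y - (1 + y + y ^ 2 / 2)) y := by
    intro y
    have h := (hasDerivAt_exp y).sub ((((hasDerivAt_const y (1 : ℝ)).add (hasDerivAt_id y)).add
      ((hasDerivAt_pow 2 y).div_const 2)).add ((hasDerivAt_pow 3 y).div_const 6))
    refine h.congr_deriv ?_
    simp only [Nat.cast_ofNat]
    ring
  rcases le_total 0 x with hx | hx
  · have m2 : MonotoneOn (fun y => exp y - (1 + y + y ^ 2 / 2 + y ^ 3 / 6)) (Set.Ici 0) := by
      refine monotoneOn_of_deriv_nonneg (convex_Ici 0) ?_ ?_ ?_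
      · exact fun y _ => (d2 y).continuousAt.continuousWithinAt
      · exact fun y _ => (d2 y).differentiableAt.differentiableWithinAt
      · intro y hy
        rw [interior_Ici] at hy
        rw [(d2 y).deriv]
        exact s1 y (le_of_lt hy)
    have := m2 (Set.mem_Ici.2 le_rfl) (Set.mem_Ici.2 hx) hx
    simp at this
    linarith
  · have m2 : AntitoneOn (fun y => exp y - (1 + y + y ^ 2 / 2 + y ^ 3 / 6)) (Set.Iic 0) := by
      refine antitoneOn_of_deriv_nonpos (convex_Iic 0) ?_ ?_ ?_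
      · exact fun y _ => (d2 y).continuousAt.continuousWithinAt
      · exact fun y _ => (d2 y).differentiableAt.differentiableWithinAt
      · intro y hy
        rw [interior_Iic] at hy
        rw [(d2 y).deriv]
        exact s2 y (le_of_lt hy)
    have := m2 (Set.mem_Iic.2 hx) (Set.mem_Iic.2 le_rfl) hx
    simp at this
    linarith

theorem exp_neg_ge (c L μ : ℝ) (_hL : 0 ≤ L) (hc : L ≤ exp (-c)) (hq : 0 ≤ 1 - (μ - c) +
    (μ - c) ^ 2 / 2 - (μ - c) ^ 3 / 6) :
    L * (1 - (μ - c) + (μ - c) ^ 2 / 2 - (μ - c) ^ 3 / 6) ≤ exp (-μ) := by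
  have h1 := cubic_le_exp (-(μ - c))
  have h2 : exp (-μ) = exp (-c) * exp (-(μ - c)) := by rw [← exp_add]; ring_nf
  rw [h2]
  have h3 : 1 - (μ - c) + (μ - c) ^ 2 / 2 - (μ - c) ^ 3 / 6 ≤ exp (-(μ - c)) := by
    have e : 1 + -(μ - c) + (-(μ - c)) ^ 2 / 2 + (-(μ - c)) ^ 3 / 6 =
      1 - (μ - c) + (μ - c) ^ 2 / 2 - (μ - c) ^ 3 / 6 := by ring
    rw [← e]; exact h1
  exact mul_le_mul hc h3 hq (exp_pos _).le

theorem exp_neg_two : (1353 : ℝ) / 10000 ≤ exp (-2) := by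
  have h := exp_neg_one_gt_d9
  have e : exp (-2) = exp (-1) * exp (-1) := by rw [← exp_add]; norm_num
  rw [e]
  nlinarith

theorem exp_neg_four : (183 : ℝ) / 10000 ≤ exp (-4) := by
  have h := exp_neg_two
  have e : exp (-4) = exp (-2) * exp (-2) := by rw [← exp_add]; norm_num
  rw [e]
  nlinarith

theorem exp_neg_six : (247 : ℝ) / 100000 ≤ exp (-6) := by
  have h := exp_neg_two
  have h' := exp_neg_four
  have e : exp (-6) = exp (-2) * exp (-4) := by rw [← exp_add]; norm_num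
  rw [e]
  nlinarith

/-- The key numerical inequality. -/
theorem key_ineq {μ : ℝ} (hμ : 7 / 4 ≤ μ) :
    50 / 81 ≤ μ / 10 + μ * (9 / 10 * μ - 1 / 10) * exp (-μ) := by
  have hpos : 0 ≤ μ * (9 / 10 * μ - 1 / 10) := by
    apply mul_nonneg <;> linarith
  rcases le_total μ (29 / 10) with h1 | h1
  · have hq : 0 ≤ 1 - (μ - 2) + (μ - 2) ^ 2 / 2 - (μ - 2) ^ 3 / 6 := by
      nlinarith [mul_nonneg (sub_nonneg.2 hμ) (sub_nonneg.2 h1), sq_nonneg (μ - 2)]
    have h := exp_neg_ge 2 (1353 / 10000) μ (by norm_num) exp_neg_two hq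
    have h' := mul_le_mul_of_nonneg_left h hpos
    refine le_trans ?_ (add_le_add_right h' (μ / 10))
    have t0 : 0 ≤ μ - 7 / 4 := by linarith
    have s0 : 0 ≤ 29 / 10 - μ := by linarith
    nlinarith [pow_nonneg s0 5, mul_nonneg t0 (pow_nonneg s0 4),
      mul_nonneg (pow_nonneg t0 2) (pow_nonneg s0 3), mul_nonneg (pow_nonneg t0 3) (pow_nonneg s0 2),
      mul_nonneg (pow_nonneg t0 4) s0, pow_nonneg t0 5]
  rcases le_total μ 5 with h2 | h2
  · have hq : 0 ≤ 1 - (μ - 4) + (μ - 4) ^ 2 / 2 - (μ - 4) ^ 3 / 6 := by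
      nlinarith [mul_nonneg (sub_nonneg.2 h1) (sub_nonneg.2 h2), sq_nonneg (μ - 4)]
    have h := exp_neg_ge 4 (183 / 10000) μ (by norm_num) exp_neg_four hq
    have h' := mul_le_mul_of_nonneg_left h hpos
    refine le_trans ?_ (add_le_add_right h' (μ / 10))
    have t0 : 0 ≤ μ - 29 / 10 := by linarith
    have s0 : 0 ≤ 5 - μ := by linarith
    nlinarith [pow_nonneg s0 5, mul_nonneg t0 (pow_nonneg s0 4),
      mul_nonneg (pow_nonneg t0 2) (pow_nonneg s0 3), mul_nonneg (pow_nonneg t0 3) (pow_nonneg s0 2),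
      mul_nonneg (pow_nonneg t0 4) s0, pow_nonneg t0 5]
  rcases le_total μ (62 / 10) with h3 | h3
  · have hq : 0 ≤ 1 - (μ - 6) + (μ - 6) ^ 2 / 2 - (μ - 6) ^ 3 / 6 := by
      nlinarith [mul_nonneg (sub_nonneg.2 h2) (sub_nonneg.2 h3), sq_nonneg (μ - 6)]
    have h := exp_neg_ge 6 (247 / 100000) μ (by norm_num) exp_neg_six hq
    have h' := mul_le_mul_of_nonneg_left h hpos
    refine le_trans ?_ (add_le_add_right h' (μ / 10))
    have t0 : 0 ≤ μ - 5 := by linarith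
    have s0 : 0 ≤ 62 / 10 - μ := by linarith
    nlinarith [pow_nonneg s0 5, mul_nonneg t0 (pow_nonneg s0 4),
      mul_nonneg (pow_nonneg t0 2) (pow_nonneg s0 3), mul_nonneg (pow_nonneg t0 3) (pow_nonneg s0 2),
      mul_nonneg (pow_nonneg t0 4) s0, pow_nonneg t0 5]
  · have := mul_nonneg hpos (exp_pos (-μ)).le
    linarith

/-- probability that a Poisson variable of mean `μ` is at least two -/
noncomputable def P2 (μ : ℝ) : ℝ := 1 - exp (-μ) - μ * exp (-μ)

/-- expectation of a Poisson variable restricted to values at least two -/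
noncomputable def E2 (μ : ℝ) : ℝ := μ - μ * exp (-μ)

theorem P2_le_one {μ : ℝ} (h : 0 ≤ μ) : P2 μ ≤ 1 := by
  unfold P2
  have := exp_pos (-μ)
  have := mul_nonneg h this.le
  linarith

theorem P2_nonneg {μ : ℝ} (h : 0 ≤ μ) : 0 ≤ P2 μ := by
  unfold P2
  have h1 := add_one_le_exp μ
  have h2 : exp (-μ) * exp μ = 1 := by rw [← exp_add]; simp
  nlinarith [exp_pos (-μ)]

theorem P2_mono {μ μ' : ℝ} (h : 0 ≤ μ) (h' : μ ≤ μ') : P2 μ ≤ P2 μ' := by
  have hd : ∀ y : ℝ, HasDerivAt P2 (y * exp (-y)) y := by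
    intro y
    have he : HasDerivAt (fun y : ℝ => exp (-y)) (-exp (-y)) y := by
      simpa using (hasDerivAt_neg y).exp
    have := ((hasDerivAt_const y (1 : ℝ)).sub he).sub ((hasDerivAt_id y).mul he)
    refine this.congr_deriv ?_
    simp
  have m : MonotoneOn P2 (Set.Ici 0) := by
    refine monotoneOn_of_deriv_nonneg (convex_Ici 0) ?_ ?_ ?_
    · exact fun y _ => (hd y).continuousAt.continuousWithinAt
    · exact fun y _ => (hd y).differentiableAt.differentiableWithinAt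
    · intro y hy
      rw [interior_Ici] at hy
      rw [(hd y).deriv]
      exact mul_nonneg (le_of_lt hy) (exp_pos _).le
  exact m (Set.mem_Ici.2 h) (Set.mem_Ici.2 (h.trans h')) h'

theorem P2_one_ge : (1 : ℝ) / 4 ≤ P2 1 := by
  unfold P2
  have h := exp_neg_one_lt_d9
  linarith

theorem P2_ge {μ : ℝ} (h : 1 ≤ μ) : (1 : ℝ) / 4 ≤ P2 μ :=
  P2_one_ge.trans (P2_mono zero_le_one h)

/-- scheme II pays off -/
theorem scheme_two {μ : ℝ} (hμ : 7 / 4 ≤ μ) :
    9 / 10 * μ + 50 / 81 / P2 μ ≤ E2 μ / P2 μ := by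
  have hP : 0 < P2 μ := lt_of_lt_of_le (by norm_num) (P2_ge (by linarith))
  rw [← sub_nonneg]
  have : E2 μ / P2 μ - (9 / 10 * μ + 50 / 81 / P2 μ) =
      (E2 μ - 9 / 10 * μ * P2 μ - 50 / 81) / P2 μ := by
    rw [sub_div, sub_div, mul_div_assoc, div_self hP.ne']
    ring
  rw [this]
  apply div_nonneg _ hP.le
  have := key_ineq hμ
  unfold E2 P2
  nlinarith

/-- scheme I pays off -/
theorem scheme_one {s : ℝ} (h1 : 1 ≤ s) (h2 : s ≤ 1618 / 1000) : s + 1 / s ^ 2 ≤ 2 := by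
  have hs : 0 < s ^ 2 := by positivity
  rw [← sub_nonneg]
  have : 2 - (s + 1 / s ^ 2) = (s - 1) * (1 + s - s ^ 2) / s ^ 2 := by
    field_simp
    ring
  rw [this]
  apply div_nonneg _ hs.le
  apply mul_nonneg (by linarith)
  nlinarith

/-- arithmetic-geometric mean -/
theorem amgm {M ν : ℝ} (hM : 0 ≤ M) (hν : 0 < ν) :
    3 / 2 * M ^ ((2 : ℝ) / 3) ≤ 9 / 10 * (M / ν) + 50 / 81 * ν ^ 2 := by
  set r := M ^ ((1 : ℝ) / 3) with hr
  have hr0 : 0 ≤ r := rpow_nonneg hM _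
  have hr3 : r ^ 3 = M := by
    rw [hr, ← rpow_natCast, ← rpow_mul hM]; norm_num
  have hr2 : M ^ ((2 : ℝ) / 3) = r ^ 2 := by
    rw [hr, ← rpow_natCast, ← rpow_mul hM]; norm_num
  rw [hr2, ← hr3]
  set u := 10 / 9 * ν with hu
  have hu0 : 0 < u := by positivity
  have e : 9 / 10 * (r ^ 3 / ν) + 50 / 81 * ν ^ 2 = r ^ 3 / u + u ^ 2 / 2 := by
    rw [hu]; field_simp; ring
  rw [e, ← sub_nonneg]
  have e2 : r ^ 3 / u + u ^ 2 / 2 - 3 / 2 * r ^ 2 = (u - r) ^ 2 * (u + 2 * r) / (2 * u) := by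
    field_simp; ring
  rw [e2]
  positivity

end Pool.Agent.InvC4
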