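import Mathlib

set_option autoImplicit false

namespace Pool.Agent.InvC4

open Finset

/-- average of a function over a finite type -/
noncomputable def avg {X : Type*} [Fintype X] (F : X → ℝ) : ℝ := (∑ x, F x) / Fintype.card X

section basic

variable {X Y : Type*} [Fintype X] [Fintype Y]

theorem avg_const [Nonempty X] (c : ℝ) : avg (fun _ : X => c) = c := by
  unfold avg
  rw [sum_const, card_univ, nsmul_eq_mul]
  field_simp

theorem avg_add (F G : X → ℝ) : avg (fun x => F x + G x) = avg F + avg G := by
  unfold avg; rw [sum_add_distrib, add_div]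

theorem avg_sub (F G : X → ℝ) : avg (fun x => F x - G x) = avg F - avg G := by
  unfold avg; rw [sum_sub_distrib, sub_div]

theorem avg_mul_left (c : ℝ) (F : X → ℝ) : avg (fun x => c * F x) = c * avg F := by
  unfold avg; rw [← mul_sum, mul_div_assoc]

theorem avg_le_avg {F G : X → ℝ} (h : ∀ x, F x ≤ G x) : avg F ≤ avg G := by
  unfold avg
  exact div_le_div_of_nonneg_right (sum_le_sum fun x _ => h x) (by positivity)

theorem avg_nonneg {F : X → ℝ} (h : ∀ x, 0 ≤ F x) : 0 ≤ avg F := by
  unfold avg
  exact div_nonneg (sum_nonneg fun x _ => h x) (by positivity)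

theorem avg_equiv (e : X ≃ Y) (F : Y → ℝ) : avg (fun x => F (e x)) = avg F := by
  unfold avg
  rw [Fintype.card_congr e, Equiv.sum_comp e F]

theorem avg_prod (F : X × Y → ℝ) : avg F = avg (fun x => avg (fun y => F (x, y))) := by
  unfold avg
  rw [Fintype.sum_prod_type, ← sum_div, Fintype.card_prod, div_div]
  push_cast
  rw [mul_comm]

theorem avg_sum {ι : Type*} (s : Finset ι) (F : ι → X → ℝ) :
    avg (fun x => ∑ i ∈ s, F i x) = ∑ i ∈ s, avg (F i) := by
  unfold avg
  rw [sum_comm, sum_div]

/-- a function takes a value at most its average -/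
theorem exists_le_avg [Nonempty X] (F : X → ℝ) : ∃ x, F x ≤ avg F := by
  by_contra hno
  push Not at hno
  have : avg (fun _ : X => avg F) < avg F := by
    unfold avg at hno ⊢
    have hc : (0 : ℝ) < Fintype.card X := by exact_mod_cast Fintype.card_pos
    refine div_lt_div_of_pos_right ?_ hc
    exact sum_lt_sum (fun x _ => (hno x).le) ⟨Classical.arbitrary X, mem_univ _, hno _⟩
  rw [avg_const] at this
  exact lt_irrefl _ this

end basic

/-- variance with respect to the uniform measure -/
noncomputable def var {X : Type*} [Fintype X] (F : X → ℝ) : ℝ :=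
  avg (fun x => F x ^ 2) - avg F ^ 2

theorem var_eq {X : Type*} [Fintype X] [Nonempty X] (F : X → ℝ) :
    var F = avg (fun x => (F x - avg F) ^ 2) := by
  have : (fun x => (F x - avg F) ^ 2) = fun x => F x ^ 2 - (2 * avg F) * F x + avg F ^ 2 := by
    funext x; ring
  rw [this, avg_add, avg_sub, avg_mul_left, avg_const]
  unfold var
  ring

theorem var_le_of_diff {X : Type*} [Fintype X] [Nonempty X] (F : X → ℝ) {c : ℝ}
    (h : ∀ x y, |F x - F y| ≤ c) : var F ≤ c ^ 2 := by
  have hc : 0 ≤ c := (abs_nonneg _).trans (h (Classical.arbitrary X) (Classical.arbitrary X))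
  rw [var_eq]
  have hx : ∀ x, (F x - avg F) ^ 2 ≤ c ^ 2 := by
    intro x
    have h1 : F x - avg F = avg (fun y => F x - F y) := by rw [avg_sub, avg_const]
    have h2 : |F x - avg F| ≤ c := by
      rw [h1, abs_le]
      constructor
      · have := avg_le_avg (F := fun _ : X => -c) (G := fun y => F x - F y)
          (fun y => (abs_le.1 (h x y)).1)
        rwa [avg_const] at this
      · have := avg_le_avg (G := fun _ : X => c) (F := fun y => F x - F y)
          (fun y => (abs_le.1 (h x y)).2)
        rwa [avg_const] at this
    exact sq_le_sq' (abs_le.1 h2).1 (abs_le.1 h2).2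
  have := avg_le_avg hx
  rwa [avg_const] at this

theorem var_fin {Ω : Type*} [Fintype Ω] [Nonempty Ω] (n : ℕ) :
    ∀ (F : (Fin n → Ω) → ℝ) (c : Fin n → ℝ),
      (∀ i f x, |F (Function.update f i x) - F f| ≤ c i) → var F ≤ ∑ i, c i ^ 2 := by
  induction n with
  | zero =>
    intro F c _
    have : ∀ f : Fin 0 → Ω, F f = F Fin.elim0 := fun f => by rw [Subsingleton.elim f Fin.elim0]
    have hF : F = fun _ => F Fin.elim0 := funext this
    rw [hF]
    unfold var
    rw [avg_const, avg_const]
    simp
  | succ n ih =>
    intro F c hF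
    set e := Fin.consEquiv (fun _ : Fin (n + 1) => Ω) with he
    set G : Ω × (Fin n → Ω) → ℝ := fun p => F (e p) with hG
    have h1 : var F = avg (fun x => var (fun g => G (x, g))) +
        var (fun x => avg (fun g => G (x, g))) := by
      unfold var
      rw [avg_sub, ← avg_equiv e F, ← avg_equiv e (fun f => F f ^ 2), avg_prod, avg_prod]
      ring
    have h2 : avg (fun x => var (fun g => G (x, g))) ≤ ∑ i : Fin n, c i.succ ^ 2 := by
      have := avg_le_avg (F := fun x => var (fun g => G (x, g)))
        (G := fun _ => ∑ i : Fin n, c i.succ ^ 2) (fun x => ih _ _ (fun i g y => by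
          show |F (Fin.cons x (Function.update g i y)) - F (Fin.cons x g)| ≤ _
          rw [Fin.cons_update]
          exact hF i.succ _ y))
      rwa [avg_const] at this
    have h3 : var (fun x => avg (fun g => G (x, g))) ≤ c 0 ^ 2 := by
      refine var_le_of_diff _ (fun x y => ?_)
      rw [← avg_sub]
      have hb : ∀ g, |G (x, g) - G (y, g)| ≤ c 0 := by
        intro g
        show |F (Fin.cons x g) - F (Fin.cons y g)| ≤ _
        have h := hF 0 (Fin.cons y g) x
        rwa [Fin.update_cons_zero] at h
      rw [abs_le]
      constructor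
      · have := avg_le_avg (F := fun _ : Fin n → Ω => -c 0)
          (G := fun g => G (x, g) - G (y, g)) (fun g => (abs_le.1 (hb g)).1)
        rwa [avg_const] at this
      · have := avg_le_avg (G := fun _ : Fin n → Ω => c 0)
          (F := fun g => G (x, g) - G (y, g)) (fun g => (abs_le.1 (hb g)).2)
        rwa [avg_const] at this
    rw [h1, Fin.sum_univ_succ]
    linarith

/-- variance bound from bounded differences -/
theorem var_le {α Ω : Type*} [Fintype α] [DecidableEq α] [Fintype Ω] [Nonempty Ω]
    (F : (α → Ω) → ℝ) (c : α → ℝ)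
    (hF : ∀ a f x, |F (Function.update f a x) - F f| ≤ c a) : var F ≤ ∑ a, c a ^ 2 := by
  classical
  set e := Fintype.equivFin α with he
  set E : (Fin (Fintype.card α) → Ω) ≃ (α → Ω) := Equiv.arrowCongr e.symm (Equiv.refl Ω) with hE
  have hEa : ∀ g a, E g a = g (e a) := fun g a => rfl
  have h1 : var F = var (fun g => F (E g)) := by
    unfold var
    rw [avg_equiv E F, avg_equiv E (fun f => F f ^ 2)]
  have h2 := var_fin (Fintype.card α) (fun g => F (E g)) (fun i => c (e.symm i)) (by
    intro i g x
    have : E (Function.update g i x) = Function.update (E g) (e.symm i) x := by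
      funext a
      rw [hEa]
      by_cases ha : e a = i
      · rw [ha, Function.update_self, ← ha, Equiv.symm_apply_apply, Function.update_self]
      · rw [Function.update_of_ne ha, Function.update_of_ne (by
          intro h; apply ha; rw [h, Equiv.apply_symm_apply]), hEa]
    rw [this]
    exact hF _ _ _)
  rw [h1]
  refine h2.trans (le_of_eq ?_)
  exact Equiv.sum_comp e.symm (fun a => c a ^ 2)

/-- Chebyshev's inequality -/
theorem chebyshev {X : Type*} [Fintype X] [Nonempty X] (F : X → ℝ) {t : ℝ} (ht : 0 < t) :
    avg (fun x => if t < |F x - avg F| then (1 : ℝ) else 0) ≤ var F / t ^ 2 := by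
  rw [var_eq, le_div_iff₀ (by positivity), mul_comm, ← avg_mul_left]
  refine avg_le_avg fun x => ?_
  split_ifs with h
  · rw [mul_one, ← sq_abs (F x - avg F)]
    exact pow_le_pow_left₀ ht.le h.le 2
  · rw [mul_zero]; positivity

/-- Markov's inequality -/
theorem markov {X : Type*} [Fintype X] [Nonempty X] (F : X → ℝ) (hF : ∀ x, 0 ≤ F x) {t : ℝ}
    (ht : 0 < t) : avg (fun x => if t < F x then (1 : ℝ) else 0) ≤ avg F / t := by
  rw [le_div_iff₀ ht, mul_comm, ← avg_mul_left]
  refine avg_le_avg fun x => ?_
  split_ifs with h
  · linarith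
  · rw [mul_zero]; exact hF x

/-! ### Product expectations -/

theorem avg_prod_fun {α Ω : Type*} [Fintype α] [DecidableEq α] [Fintype Ω] [Nonempty Ω]
    (g : α → Ω → ℝ) : avg (fun f : α → Ω => ∏ a, g a (f a)) = ∏ a, avg (g a) := by
  unfold avg
  rw [prod_div_distrib, Finset.prod_univ_sum, Fintype.piFinset_univ, prod_const, card_univ]
  congr 1
  rw [Fintype.card_fun]
  push_cast
  rfl

/-- probability that no element of `D` is mapped into `L` -/
theorem avg_none {α Ω : Type*} [Fintype α] [DecidableEq α] [Fintype Ω] [Nonempty Ω]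
    [DecidableEq Ω] (D : Finset α) (L : Finset Ω) :
    avg (fun f : α → Ω => if ∀ a ∈ D, f a ∉ L then (1 : ℝ) else 0) =
      (1 - (L.card : ℝ) / Fintype.card Ω) ^ D.card := by
  have h1 : ∀ f : α → Ω, (if ∀ a ∈ D, f a ∉ L then (1 : ℝ) else 0) =
      ∏ a, (if a ∈ D then (if f a ∉ L then 1 else 0) else 1) := by
    intro f
    rw [prod_ite_mem, univ_inter]
    by_cases h : ∀ a ∈ D, f a ∉ L
    · rw [if_pos h, prod_eq_one]
      intro a ha
      rw [if_pos (h a ha)]
    · rw [if_neg h]
      push Not at h
      obtain ⟨a, ha, haL⟩ := h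
      rw [prod_eq_zero ha]
      rw [if_neg (by simpa using haL)]
  have h2 : ∀ a, avg (fun x : Ω => if a ∈ D then (if x ∉ L then (1 : ℝ) else 0) else 1) =
      if a ∈ D then 1 - (L.card : ℝ) / Fintype.card Ω else 1 := by
    intro a
    by_cases ha : a ∈ D
    · simp only [if_pos ha]
      have : (fun x : Ω => if x ∉ L then (1 : ℝ) else 0) = fun x => 1 - (if x ∈ L then 1 else 0) := by
        funext x
        by_cases hx : x ∈ L <;> simp [hx]
      rw [this, avg_sub, avg_const]
      congr 1
      unfold avg
      rw [sum_ite_mem, univ_inter, sum_const, nsmul_eq_mul, mul_one]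
    · simp only [if_neg ha]
      rw [avg_const]
  simp only [h1]
  rw [avg_prod_fun (fun a x => if a ∈ D then (if x ∉ L then (1 : ℝ) else 0) else 1)]
  simp only [h2]
  rw [prod_ite_mem, univ_inter, prod_const]

/-- probability that exactly one element of `D` is mapped into `L` -/
theorem avg_one {α Ω : Type*} [Fintype α] [DecidableEq α] [Fintype Ω] [Nonempty Ω]
    [DecidableEq Ω] (D : Finset α) (L : Finset Ω) :
    avg (fun f : α → Ω => if (D.filter fun a => f a ∈ L).card = 1 then (1 : ℝ) else 0) =
      D.card * ((L.card : ℝ) / Fintype.card Ω) *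
        (1 - (L.card : ℝ) / Fintype.card Ω) ^ (D.card - 1) := by
  have h1 : ∀ f : α → Ω, (if (D.filter fun a => f a ∈ L).card = 1 then (1 : ℝ) else 0) =
      ∑ a ∈ D, ∏ a', (if a' = a then (if f a' ∈ L then 1 else 0) else
        (if a' ∈ D.erase a then (if f a' ∉ L then 1 else 0) else 1)) := by
    intro f
    have hterm : ∀ a ∈ D, (∏ a', (if a' = a then (if f a' ∈ L then (1 : ℝ) else 0) else
        (if a' ∈ D.erase a then (if f a' ∉ L then 1 else 0) else 1))) =
        if D.filter (fun a => f a ∈ L) = {a} then 1 else 0 := by
      intro a ha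
      by_cases h : D.filter (fun a => f a ∈ L) = {a}
      · rw [if_pos h, prod_eq_one]
        intro a' _
        by_cases haa : a' = a
        · rw [if_pos haa, if_pos]
          have : a ∈ D.filter (fun a => f a ∈ L) := by rw [h]; exact mem_singleton_self a
          rw [haa]
          exact (mem_filter.1 this).2
        · rw [if_neg haa]
          by_cases hm : a' ∈ D.erase a
          · rw [if_pos hm, if_pos]
            intro hL
            have : a' ∈ D.filter (fun a => f a ∈ L) :=
              mem_filter.2 ⟨(mem_erase.1 hm).2, hL⟩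
            rw [h, mem_singleton] at this
            exact haa this
          · rw [if_neg hm]
      · rw [if_neg h]
        by_cases haL : f a ∈ L
        · -- some other element
          have : ∃ a' ∈ D.erase a, f a' ∈ L := by
            by_contra hno
            push Not at hno
            apply h
            ext x
            rw [mem_filter, mem_singleton]
            constructor
            · rintro ⟨hx, hxL⟩
              by_contra hxa
              exact hno x (mem_erase.2 ⟨hxa, hx⟩) hxL
            · rintro rfl
              exact ⟨ha, haL⟩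
          obtain ⟨a', ha', haL'⟩ := this
          refine prod_eq_zero (mem_univ a') ?_
          rw [if_neg (mem_erase.1 ha').1, if_pos ha', if_neg (by simpa using haL')]
        · refine prod_eq_zero (mem_univ a) ?_
          rw [if_pos rfl, if_neg haL]
    rw [sum_congr rfl hterm]
    by_cases h : (D.filter fun a => f a ∈ L).card = 1
    · rw [if_pos h]
      obtain ⟨a, ha⟩ := card_eq_one.1 h
      have haD : a ∈ D := by
        have : a ∈ D.filter (fun a => f a ∈ L) := by rw [ha]; exact mem_singleton_self a
        exact (mem_filter.1 this).1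
      rw [ha, sum_eq_single a]
      · rw [if_pos rfl]
      · intro b _ hb
        rw [if_neg]
        intro h'
        exact hb (singleton_injective h').symm
      · intro h'; exact absurd haD h'
    · rw [if_neg h, sum_eq_zero]
      intro a _
      rw [if_neg]
      intro h'
      apply h
      rw [h', card_singleton]
  have hL1 : avg (fun x : Ω => if x ∈ L then (1 : ℝ) else 0) = (L.card : ℝ) / Fintype.card Ω := by
    unfold avg
    rw [sum_ite_mem, univ_inter, sum_const, nsmul_eq_mul, mul_one]
  have hL0 : avg (fun x : Ω => if x ∉ L then (1 : ℝ) else 0) =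
      1 - (L.card : ℝ) / Fintype.card Ω := by
    have : (fun x : Ω => if x ∉ L then (1 : ℝ) else 0) = fun x => 1 - (if x ∈ L then 1 else 0) := by
      funext x
      by_cases hx : x ∈ L <;> simp [hx]
    rw [this, avg_sub, avg_const, hL1]
  simp only [h1]
  rw [avg_sum]
  have h2 : ∀ a ∈ D, avg (fun f : α → Ω => ∏ a', (if a' = a then (if f a' ∈ L then (1 : ℝ) else 0)
      else (if a' ∈ D.erase a then (if f a' ∉ L then 1 else 0) else 1))) =
      ((L.card : ℝ) / Fintype.card Ω) * (1 - (L.card : ℝ) / Fintype.card Ω) ^ (D.card - 1) := by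
    intro a ha
    rw [avg_prod_fun (fun a' x => if a' = a then (if x ∈ L then (1 : ℝ) else 0)
      else (if a' ∈ D.erase a then (if x ∉ L then 1 else 0) else 1))]
    have h3 : ∀ a', avg (fun x : Ω => if a' = a then (if x ∈ L then (1 : ℝ) else 0)
      else (if a' ∈ D.erase a then (if x ∉ L then 1 else 0) else 1)) =
        if a' = a then (L.card : ℝ) / Fintype.card Ω else
          (if a' ∈ D.erase a then 1 - (L.card : ℝ) / Fintype.card Ω else 1) := by
      intro a'
      by_cases haa : a' = a
      · simp only [if_pos haa]
        exact hL1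
      · simp only [if_neg haa]
        by_cases hm : a' ∈ D.erase a
        · simp only [if_pos hm]; exact hL0
        · simp only [if_neg hm]; exact avg_const 1
    simp only [h3]
    rw [← mul_prod_erase univ _ (mem_univ a), if_pos rfl]
    congr 1
    have h4 : ∀ a' ∈ univ.erase a, (if a' = a then (L.card : ℝ) / Fintype.card Ω else
          (if a' ∈ D.erase a then 1 - (L.card : ℝ) / Fintype.card Ω else 1)) =
          (if a' ∈ D.erase a then 1 - (L.card : ℝ) / Fintype.card Ω else 1) := by
      intro a' ha'
      rw [if_neg (mem_erase.1 ha').1]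
    rw [prod_congr rfl h4, prod_ite_mem]
    have h5 : univ.erase a ∩ D.erase a = D.erase a := by
      ext x
      simp only [mem_inter, mem_erase, mem_univ]
      tauto
    rw [h5, prod_const, card_erase_of_mem ha]
  rw [sum_congr rfl h2, sum_const, nsmul_eq_mul]
  ring

/-- probability of an event depending on two coordinates -/
theorem avg_two {α Ω : Type*} [Fintype α] [DecidableEq α] [Fintype Ω] [Nonempty Ω]
    [DecidableEq Ω] {a a' : α} (haa : a ≠ a') (p : Ω → Ω → Prop) [∀ x y, Decidable (p x y)] :
    avg (fun f : α → Ω => if p (f a) (f a') then (1 : ℝ) else 0) =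
      ((univ.filter fun q : Ω × Ω => p q.1 q.2).card : ℝ) / (Fintype.card Ω : ℝ) ^ 2 := by
  have h1 : ∀ f : α → Ω, (if p (f a) (f a') then (1 : ℝ) else 0) =
      ∑ q ∈ univ.filter (fun q : Ω × Ω => p q.1 q.2), ∏ b, (if b = a then (if f b = q.1 then 1 else 0)
        else (if b = a' then (if f b = q.2 then 1 else 0) else 1)) := by
    intro f
    have h2 : ∀ q : Ω × Ω, (∏ b, (if b = a then (if f b = q.1 then (1 : ℝ) else 0)
        else (if b = a' then (if f b = q.2 then 1 else 0) else 1))) =
        if (f a, f a') = q then 1 else 0 := by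
      intro q
      by_cases hq : (f a, f a') = q
      · rw [if_pos hq, prod_eq_one]
        intro b _
        rw [← hq]
        by_cases hb : b = a
        · rw [if_pos hb, hb]; simp
        · rw [if_neg hb]
          by_cases hb' : b = a'
          · rw [if_pos hb', hb']; simp
          · rw [if_neg hb']
      · rw [if_neg hq]
        by_cases h3 : f a = q.1
        · refine prod_eq_zero (mem_univ a') ?_
          rw [if_neg (Ne.symm haa), if_pos rfl, if_neg]
          intro h4
          apply hq
          rw [h3, h4]
        · refine prod_eq_zero (mem_univ a) ?_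
          rw [if_pos rfl, if_neg h3]
    rw [sum_congr rfl (fun q _ => h2 q), sum_ite_eq]
    simp only [mem_filter, mem_univ, true_and]
  simp only [h1]
  rw [avg_sum]
  have h3 : ∀ q ∈ univ.filter (fun q : Ω × Ω => p q.1 q.2),
      avg (fun f : α → Ω => ∏ b, (if b = a then (if f b = q.1 then (1 : ℝ) else 0)
        else (if b = a' then (if f b = q.2 then 1 else 0) else 1))) =
        1 / (Fintype.card Ω : ℝ) ^ 2 := by
    intro q _
    rw [avg_prod_fun (fun b x => if b = a then (if x = q.1 then (1 : ℝ) else 0)
        else (if b = a' then (if x = q.2 then 1 else 0) else 1))]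
    have hs : ∀ y : Ω, avg (fun x : Ω => if x = y then (1 : ℝ) else 0) = 1 / Fintype.card Ω := by
      intro y
      unfold avg
      rw [sum_ite_eq', if_pos (mem_univ y)]
    have h4 : ∀ b, avg (fun x : Ω => if b = a then (if x = q.1 then (1 : ℝ) else 0)
        else (if b = a' then (if x = q.2 then 1 else 0) else 1)) =
        if b = a then 1 / (Fintype.card Ω : ℝ) else (if b = a' then 1 / (Fintype.card Ω : ℝ) else 1)
        := by
      intro b
      by_cases hb : b = a
      · simp only [if_pos hb]; exact hs _
      · simp only [if_neg hb]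
        by_cases hb' : b = a'
        · simp only [if_pos hb']; exact hs _
        · simp only [if_neg hb']; exact avg_const 1
    simp only [h4]
    rw [← mul_prod_erase univ _ (mem_univ a), if_pos rfl,
      ← mul_prod_erase (univ.erase a) _ (mem_erase.2 ⟨Ne.symm haa, mem_univ a'⟩),
      if_neg (Ne.symm haa), if_pos rfl, prod_eq_one]
    · field_simp
    · intro b hb
      rw [if_neg (mem_erase.1 (mem_erase.1 hb).2).1, if_neg (mem_erase.1 hb).1]
  rw [sum_congr rfl h3, sum_const, nsmul_eq_mul]
  ring

end Pool.Agent.InvC4
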