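import Mathlib

set_option autoImplicit false

namespace Pool.Agent.InvC4

open Finset SimpleGraph

/-- `H` has no `4`-cycle as soon as no two vertices have two common neighbours -/
theorem free_of {V : Type*} {H : SimpleGraph V}
    (h : ∀ a b x y, a ≠ b → x ≠ y → H.Adj a x → H.Adj a y → H.Adj b x → H.Adj b y → False) :
    (cycleGraph 4).Free H := by
  rintro ⟨f⟩
  have h01 : (cycleGraph 4).Adj 0 1 := by rw [cycleGraph_adj]; decide
  have h12 : (cycleGraph 4).Adj 1 2 := by rw [cycleGraph_adj]; decide
  have h23 : (cycleGraph 4).Adj 2 3 := by rw [cycleGraph_adj]; decide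
  have h03 : (cycleGraph 4).Adj 0 3 := by rw [cycleGraph_adj]; decide
  have e01 := f.toHom.map_adj h01
  have e12 := f.toHom.map_adj h12
  have e23 := f.toHom.map_adj h23
  have e03 := f.toHom.map_adj h03
  exact h (f.toHom 0) (f.toHom 2) (f.toHom 1) (f.toHom 3)
    (fun hh => absurd (f.injective hh) (by decide))
    (fun hh => absurd (f.injective hh) (by decide)) e01 e03 e12.symm e23

/-- a `4`-cycle-free graph has no two vertices with two common neighbours -/
theorem of_free {V : Type*} {H : SimpleGraph V} (h : (cycleGraph 4).Free H) :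
    ∀ a b x y, a ≠ b → x ≠ y → H.Adj a x → H.Adj a y → H.Adj b x → H.Adj b y → False := by
  intro a b x y hab hxy hax hay hbx hby
  apply h
  refine ⟨⟨⟨![a, x, b, y], ?_⟩, ?_⟩⟩
  · intro i j hij
    rw [cycleGraph_adj] at hij
    fin_cases i <;> fin_cases j <;> first
      | exact hax | exact hax.symm | exact hay | exact hay.symm | exact hbx | exact hbx.symm
      | exact hby | exact hby.symm | (exfalso; revert hij; decide)
  · intro i j hij
    have h1 := hax.ne
    have h2 := hay.ne
    have h3 := hbx.ne
    have h4 := hby.ne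
    fin_cases i <;> fin_cases j <;> simp_all

end Pool.Agent.InvC4
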