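import Mathlib
import Pool.Agent.InvC4.C4

set_option autoImplicit false

namespace Pool.Agent.InvC4

open Finset SimpleGraph

/-- The graph given by a set system: `b` outside `A` is joined to the elements of `S b`. -/
def sysGraph {V : Type*} (A : Finset V) (S : {v // v ∉ A} → Finset {v // v ∈ A}) :
    SimpleGraph V where
  Adj x y := (∃ (hx : x ∈ A) (hy : y ∉ A), (⟨x, hx⟩ : {v // v ∈ A}) ∈ S ⟨y, hy⟩) ∨
    (∃ (hy : y ∈ A) (hx : x ∉ A), (⟨y, hy⟩ : {v // v ∈ A}) ∈ S ⟨x, hx⟩)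
  symm := ⟨fun _ _ h => Or.symm h⟩
  loopless := ⟨fun x h => by
    rcases h with ⟨hx, hy, _⟩ | ⟨hy, hx, _⟩
    · exact hy hx
    · exact hx hy⟩

theorem sysGraph_free {V : Type*} [DecidableEq V] (A : Finset V)
    (S : {v // v ∉ A} → Finset {v // v ∈ A})
    (hS : ∀ b b', b ≠ b' → (S b ∩ S b').card ≤ 1) : (cycleGraph 4).Free (sysGraph A S) := by
  -- the key fact: two vertices outside `A` have at most one common neighbour
  have key : ∀ b b' x y, ∀ hb : b ∉ A, ∀ hb' : b' ∉ A, b ≠ b' → x ≠ y →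
      (sysGraph A S).Adj b x → (sysGraph A S).Adj b y → (sysGraph A S).Adj b' x →
      (sysGraph A S).Adj b' y → False := by
    intro b b' x y hb hb' hbb hxy h1 h2 h3 h4
    have get : ∀ c z, ∀ hc : c ∉ A, (sysGraph A S).Adj c z →
        ∃ hz : z ∈ A, (⟨z, hz⟩ : {v // v ∈ A}) ∈ S ⟨c, hc⟩ := by
      intro c z hc h
      rcases h with ⟨hc', _, _⟩ | ⟨hz, _, hm⟩
      · exact absurd hc' hc
      · exact ⟨hz, hm⟩
    obtain ⟨hx, h1⟩ := get b x hb h1
    obtain ⟨hy, h2⟩ := get b y hb h2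
    obtain ⟨_, h3⟩ := get b' x hb' h3
    obtain ⟨_, h4⟩ := get b' y hb' h4
    have hle := hS ⟨b, hb⟩ ⟨b', hb'⟩ (fun h => hbb (congrArg Subtype.val h))
    rw [card_le_one] at hle
    have := hle _ (mem_inter.2 ⟨h1, h3⟩) _ (mem_inter.2 ⟨h2, h4⟩)
    exact hxy (congrArg Subtype.val this)
  have hcross : ∀ x y, (sysGraph A S).Adj x y → (x ∈ A ↔ y ∉ A) := by
    intro x y h
    rcases h with ⟨hx, hy, _⟩ | ⟨hy, hx, _⟩
    · exact ⟨fun _ => hy, fun _ => hx⟩
    · exact ⟨fun h => absurd h hx, fun h => absurd hy h⟩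
  refine free_of ?_
  intro a b x y hab hxy hax hay hbx hby
  by_cases ha : a ∈ A
  · have hx := (hcross _ _ hax).1 ha
    have hy := (hcross _ _ hay).1 ha
    exact key x y a b hx hy hxy hab hax.symm hbx.symm hay.symm hby.symm
  · have hx : x ∈ A := by
      by_contra hx
      exact ha ((hcross _ _ hax).2 hx)
    have hb : b ∉ A := fun hb => (hcross _ _ hbx).1 hb hx
    exact key a b x y ha hb hab hxy hax hay hbx hby

theorem sysGraph_card {V : Type*} [Fintype V] [DecidableEq V] (A : Finset V)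
    (S : {v // v ∉ A} → Finset {v // v ∈ A}) :
    ∑ b, (S b).card ≤ (sysGraph A S).edgeSet.ncard := by
  classical
  rw [← card_sigma]
  rw [← Set.ncard_coe_finset]
  refine Set.ncard_le_ncard_of_injOn (fun p => s(p.1.1, p.2.1)) ?_ ?_ (Set.toFinite _)
  · rintro ⟨b, a⟩ h
    rw [mem_coe, mem_sigma] at h
    rw [mem_edgeSet]
    exact Or.inr ⟨a.2, b.2, h.2⟩
  · rintro ⟨b, a⟩ _ ⟨b', a'⟩ _ h
    rw [Sym2.eq_iff] at h
    rcases h with ⟨h1, h2⟩ | ⟨h1, h2⟩
    · have e1 : b = b' := Subtype.ext h1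
      have e2 : a = a' := Subtype.ext h2
      subst e1 e2
      rfl
    · exact absurd (h1 ▸ a'.2 : (b : V) ∈ A) b.2

/-- the part of `G` outside `A` -/
def outGraph {V : Type*} (G : SimpleGraph V) (A : Finset V) : SimpleGraph V where
  Adj x y := G.Adj x y ∧ x ∉ A ∧ y ∉ A
  symm := ⟨fun _ _ h => ⟨h.1.symm, h.2.2, h.2.1⟩⟩
  loopless := ⟨fun _ h => G.loopless.irrefl _ h.1⟩

/-- splitting the edges of `G` according to `A` -/
theorem card_split {V : Type*} [Fintype V] [DecidableEq V] (G : SimpleGraph V)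
    [DecidableRel G.Adj] (A : Finset V) [DecidableRel (outGraph G A).Adj] :
    G.edgeSet.ncard ≤ ∑ b : {v // v ∉ A}, (univ.filter fun a : {v // v ∈ A} => G.Adj b a).card +
      (outGraph G A).edgeFinset.card + A.card ^ 2 := by
  classical
  set T : Finset (Σ _ : {v // v ∉ A}, {v // v ∈ A}) :=
    univ.sigma (fun b : {v // v ∉ A} => univ.filter fun a : {v // v ∈ A} => G.Adj b a) with hT
  have hsub : G.edgeFinset ⊆ T.image (fun p => s((p.1 : V), (p.2 : V))) ∪
      (outGraph G A).edgeFinset ∪ (A ×ˢ A).image (fun p => s(p.1, p.2)) := by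
    intro e he
    induction e with
    | h x y =>
      rw [mem_edgeFinset, mem_edgeSet] at he
      rw [mem_union, mem_union, mem_image, mem_image, mem_edgeFinset, mem_edgeSet]
      by_cases hx : x ∈ A
      · by_cases hy : y ∈ A
        · right
          exact ⟨(x, y), mem_product.2 ⟨hx, hy⟩, rfl⟩
        · left; left
          refine ⟨⟨⟨y, hy⟩, ⟨x, hx⟩⟩, ?_, Sym2.eq_swap⟩
          rw [hT, mem_sigma, mem_filter]
          exact ⟨mem_univ _, mem_univ _, he.symm⟩
      · by_cases hy : y ∈ A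
        · left; left
          refine ⟨⟨⟨x, hx⟩, ⟨y, hy⟩⟩, ?_, rfl⟩
          rw [hT, mem_sigma, mem_filter]
          exact ⟨mem_univ _, mem_univ _, he⟩
        · left; right
          exact ⟨he, hx, hy⟩
  have h1 : G.edgeSet.ncard = G.edgeFinset.card := by
    rw [← coe_edgeFinset, Set.ncard_coe_finset]
  rw [h1]
  refine (card_le_card hsub).trans ?_
  refine (card_union_le _ _).trans ?_
  refine add_le_add ((card_union_le _ _).trans (add_le_add ?_ le_rfl)) ?_
  · refine card_image_le.trans ?_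
    rw [hT, card_sigma]
  · refine card_image_le.trans ?_
    rw [card_product, sq]

/-- the two ingredients -/
def MBT : Prop := ∀ ε C : ℝ, 0 < ε → ∃ m0 : ℕ, ∀ (A B : Type) [Fintype A] [DecidableEq A]
  [Fintype B] (N : B → Finset A), m0 ≤ ∑ b, (N b).card →
  (Fintype.card A : ℝ) ≤ C * ((∑ b, (N b).card : ℕ) : ℝ) ^ (1 / 3 : ℝ) →
  ∃ S : B → Finset A, (∀ b, S b ⊆ N b) ∧ (∀ b b', b ≠ b' → (S b ∩ S b').card ≤ 1) ∧
    (3 / 2 - ε) * ((∑ b, (N b).card : ℕ) : ℝ) ^ (2 / 3 : ℝ) ≤ ((∑ b, (S b).card : ℕ) : ℝ)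

/-- the sparse lemma -/
def SparseLemma : Prop := ∀ (V : Type) [Fintype V] [DecidableEq V] (G : SimpleGraph V)
  [DecidableRel G.Adj] (D : ℕ), 1 ≤ D → (∀ v, G.degree v ≤ D) →
  ∃ H ≤ G, (cycleGraph 4).Free H ∧
    (G.edgeFinset.card : ℝ) / (12 * Real.sqrt D) ≤ (H.edgeSet.ncard : ℝ)

theorem upper_aux (mbt : MBT) (lemR : SparseLemma) {ε : ℝ} (hε : 0 < ε) (hε1 : ε ≤ 1) :
    ∃ m0 : ℕ, ∀ (n : ℕ) (G : SimpleGraph (Fin n)), m0 ≤ G.edgeSet.ncard →
      ∃ H ≤ G, (cycleGraph 4).Free H ∧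
        (3 / 2 - ε) * (G.edgeSet.ncard : ℝ) ^ (2 / 3 : ℝ) ≤ (H.edgeSet.ncard : ℝ) := by
  classical
  set η : ℝ := ε / 6 with hη
  have hη0 : 0 < η := by positivity
  have hη1 : η ≤ 1 / 6 := by rw [hη]; linarith
  set δ : ℝ := (η / 18) ^ 2 with hδ
  have hδ0 : 0 < δ := by positivity
  have hδ1 : δ ≤ 1 := by
    rw [hδ]
    have : η / 18 ≤ 1 := by linarith
    exact pow_le_one₀ (by positivity) this
  obtain ⟨m1, hm1⟩ := mbt (ε / 2) (4 / δ) (by positivity)
  obtain ⟨m2, hm2⟩ := exists_nat_ge ((4 / (δ ^ 2 * η)) ^ 3)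
  refine ⟨max (2 * m1) (max m2 1), ?_⟩
  intro n G hm
  set m : ℕ := G.edgeSet.ncard with hmdef
  have hmm1 : 2 * m1 ≤ m := (le_max_left _ _).trans hm
  have hmm2 : m2 ≤ m := ((le_max_left _ _).trans (le_max_right _ _)).trans hm
  have hmm3 : 1 ≤ m := ((le_max_right _ _).trans (le_max_right _ _)).trans hm
  set P : ℝ := (m : ℝ) ^ (1 / 3 : ℝ) with hP
  have hm0 : (0 : ℝ) < m := by exact_mod_cast hmm3
  have hP0 : 0 < P := Real.rpow_pos_of_pos hm0 _
  have hP3 : P ^ 3 = m := by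
    rw [hP, ← Real.rpow_natCast, ← Real.rpow_mul hm0.le]
    norm_num
  have hP2 : (m : ℝ) ^ (2 / 3 : ℝ) = P ^ 2 := by
    rw [hP, ← Real.rpow_natCast, ← Real.rpow_mul hm0.le]
    norm_num
  have hPbig : 4 / (δ ^ 2 * η) ≤ P := by
    have h1 : (4 / (δ ^ 2 * η)) ^ 3 ≤ P ^ 3 := by
      rw [hP3]
      refine hm2.trans ?_
      exact_mod_cast hmm2
    exact le_of_pow_le_pow_left₀ (by norm_num) hP0.le h1
  have hP4 : 4 ≤ P * (δ ^ 2 * η) := by
    rwa [div_le_iff₀ (by positivity)] at hPbig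
  -- the set of large vertices
  set A : Finset (Fin n) := univ.filter (fun v => δ * P ^ 2 < (G.degree v : ℝ)) with hA
  have hAcard : (A.card : ℝ) * δ ≤ 2 * P := by
    have h1 : (A.card : ℝ) * (δ * P ^ 2) ≤ 2 * m := by
      have h2 : (∑ v, (G.degree v : ℝ)) = 2 * m := by
        have := G.sum_degrees_eq_twice_card_edges
        have h3 : G.edgeFinset.card = m := by
          rw [hmdef, ← coe_edgeFinset, Set.ncard_coe_finset]
        rw [h3] at this
        exact_mod_cast this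
      rw [← h2]
      calc (A.card : ℝ) * (δ * P ^ 2) = ∑ v ∈ A, (δ * P ^ 2) := by
            rw [sum_const, nsmul_eq_mul]
        _ ≤ ∑ v ∈ A, (G.degree v : ℝ) := sum_le_sum fun v hv => by
            rw [hA, mem_filter] at hv
            exact hv.2.le
        _ ≤ ∑ v, (G.degree v : ℝ) :=
            sum_le_sum_of_subset_of_nonneg (subset_univ _) fun _ _ _ => by positivity
    rw [← hP3] at h1
    have h4 : ((A.card : ℝ) * δ) * P ^ 2 ≤ (2 * P) * P ^ 2 := by nlinarith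
    exact le_of_mul_le_mul_right h4 (by positivity)
  set N : {v // v ∉ A} → Finset {v // v ∈ A} := fun b => univ.filter fun a => G.Adj b a with hN
  set m' : ℕ := ∑ b, (N b).card with hm'
  have hsplit : m ≤ m' + (outGraph G A).edgeFinset.card + A.card ^ 2 := card_split G A
  by_cases hB : η * m ≤ ((outGraph G A).edgeFinset.card : ℝ)
  · -- many edges outside `A`
    have hD1 : 1 ≤ ⌊δ * P ^ 2⌋₊ := by
      rw [Nat.one_le_floor_iff]
      have h1 : δ ^ 2 * η ≤ δ := by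
        have : δ * η ≤ 1 := mul_le_one₀ hδ1 hη0.le (by linarith)
        nlinarith
      have h2 : 4 ≤ P * δ := by nlinarith
      have h3 : 4 ≤ P := by nlinarith
      nlinarith
    obtain ⟨H, hHG, hHfree, hHcard⟩ := lemR (Fin n) (outGraph G A) ⌊δ * P ^ 2⌋₊ hD1 (by
      intro v
      by_cases hv : v ∈ A
      · have : (outGraph G A).degree v = 0 := by
          rw [SimpleGraph.degree_eq_zero_iff_notMem_support]
          rintro ⟨w, hw⟩
          exact hw.2.1 hv
        rw [this]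
        exact Nat.zero_le _
      · have h1 : (outGraph G A).degree v ≤ G.degree v := by
          apply SimpleGraph.degree_le_of_le
          intro x y h
          exact h.1
        refine h1.trans ?_
        rw [hA, mem_filter] at hv
        push Not at hv
        exact Nat.le_floor (hv (mem_univ _)))
    refine ⟨H, hHG.trans (fun x y h => h.1), hHfree, ?_⟩
    refine le_trans ?_ hHcard
    rw [hP2]
    have hsq : Real.sqrt (⌊δ * P ^ 2⌋₊ : ℝ) ≤ η / 18 * P := by
      rw [Real.sqrt_le_left (by positivity)]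
      refine (Nat.floor_le (by positivity)).trans ?_
      rw [hδ]
      exact le_of_eq (by ring)
    have hsq0 : 0 < Real.sqrt (⌊δ * P ^ 2⌋₊ : ℝ) := by
      apply Real.sqrt_pos.2
      exact_mod_cast hD1
    rw [le_div_iff₀ (by positivity)]
    calc (3 / 2 - ε) * P ^ 2 * (12 * Real.sqrt (⌊δ * P ^ 2⌋₊ : ℝ))
        ≤ (3 / 2) * P ^ 2 * (12 * (η / 18 * P)) := by
          gcongr
          linarith
      _ = η * P ^ 3 := by ring
      _ = η * m := by rw [hP3]
      _ ≤ _ := hB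
  · push Not at hB
    have hA2 : ((A.card : ℝ)) ^ 2 ≤ η * m := by
      have h1 : ((A.card : ℝ) * δ) ^ 2 ≤ (2 * P) ^ 2 := by
        exact pow_le_pow_left₀ (by positivity) hAcard 2
      have h2 : (A.card : ℝ) ^ 2 * δ ^ 2 ≤ 4 * P ^ 2 := by nlinarith
      have h3 : 4 * P ^ 2 ≤ (η * m) * δ ^ 2 := by
        rw [← hP3]
        have : 4 * P ^ 2 ≤ (P * (δ ^ 2 * η)) * P ^ 2 := by
          exact mul_le_mul_of_nonneg_right hP4 (by positivity)
        calc _ ≤ _ := this
          _ = _ := by ring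
      exact le_of_mul_le_mul_right (h2.trans h3) (by positivity)
    have hm'1 : (1 - 2 * η) * m ≤ (m' : ℝ) := by
      have h1 : (m : ℝ) ≤ (m' : ℝ) + ((outGraph G A).edgeFinset.card : ℝ) + (A.card : ℝ) ^ 2 := by
        exact_mod_cast hsplit
      linarith
    have hm'2 : (m : ℝ) / 2 ≤ m' := by
      refine le_trans ?_ hm'1
      nlinarith
    have hm'3 : m1 ≤ m' := by
      have h1 : (2 * m1 : ℝ) ≤ m := by exact_mod_cast hmm1
      have h2 : (m1 : ℝ) ≤ m' := by linarith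
      exact_mod_cast h2
    have hm'0 : (0 : ℝ) ≤ m' := Nat.cast_nonneg _
    have hcube : P / 2 ≤ (m' : ℝ) ^ (1 / 3 : ℝ) := by
      have h1 : (m : ℝ) / 8 ≤ m' := by linarith
      have h2 : ((m : ℝ) / 8) ^ (1 / 3 : ℝ) ≤ (m' : ℝ) ^ (1 / 3 : ℝ) :=
        Real.rpow_le_rpow (by positivity) h1 (by norm_num)
      refine le_trans (le_of_eq ?_) h2
      have h8 : (8 : ℝ) ^ (1 / 3 : ℝ) = 2 := by
        rw [show (8 : ℝ) = 2 ^ (3 : ℝ) by norm_num, ← Real.rpow_mul (by norm_num)]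
        norm_num
      rw [Real.div_rpow hm0.le (by norm_num), h8]
    have hcardA : (Fintype.card {v // v ∈ A} : ℝ) ≤ 4 / δ * (m' : ℝ) ^ (1 / 3 : ℝ) := by
      rw [Fintype.card_coe]
      have h1 : (A.card : ℝ) ≤ 2 * P / δ := by
        rw [le_div_iff₀ hδ0]; exact hAcard
      refine h1.trans ?_
      have h2 : 2 * P / δ = 4 / δ * (P / 2) := by ring
      rw [h2]
      exact mul_le_mul_of_nonneg_left hcube (by positivity)
    have happ := hm1 {v // v ∈ A} {v // v ∉ A} N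
    rw [← hm'] at happ
    obtain ⟨S, hSN, hS1, hSc⟩ := happ hm'3 hcardA
    refine ⟨sysGraph A S, ?_, sysGraph_free A S hS1, ?_⟩
    · intro x y h
      rcases h with ⟨hx, hy, hm⟩ | ⟨hy, hx, hm⟩
      · have := hSN _ hm
        rw [hN, mem_filter] at this
        exact this.2.symm
      · have := hSN _ hm
        rw [hN, mem_filter] at this
        exact this.2
    · have h1 : ((∑ b, (S b).card : ℕ) : ℝ) ≤ ((sysGraph A S).edgeSet.ncard : ℝ) := by
        exact_mod_cast sysGraph_card A S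
      refine le_trans ?_ (hSc.trans h1)
      have h2 : ((1 - 2 * η) * m) ^ (2 / 3 : ℝ) ≤ (m' : ℝ) ^ (2 / 3 : ℝ) :=
        Real.rpow_le_rpow (mul_nonneg (by linarith) hm0.le) hm'1 (by norm_num)
      have h3 : (1 - 2 * η) * P ^ 2 ≤ ((1 - 2 * η) * m) ^ (2 / 3 : ℝ) := by
        rw [Real.mul_rpow (by linarith) hm0.le, hP2]
        refine mul_le_mul_of_nonneg_right ?_ (by positivity)
        have h4 : (1 - 2 * η) ^ (1 : ℝ) ≤ (1 - 2 * η) ^ (2 / 3 : ℝ) :=
          Real.rpow_le_rpow_of_exponent_ge (by linarith) (by linarith) (by norm_num)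
        rwa [Real.rpow_one] at h4
      rw [hP2]
      have h5 : 0 ≤ 3 / 2 - ε / 2 := by linarith
      calc (3 / 2 - ε) * P ^ 2 ≤ (3 / 2 - ε / 2) * ((1 - 2 * η) * P ^ 2) := by
            have : (3 / 2 - ε) ≤ (3 / 2 - ε / 2) * (1 - 2 * η) := by
              rw [hη]
              nlinarith [mul_pos hε hε]
            calc _ ≤ ((3 / 2 - ε / 2) * (1 - 2 * η)) * P ^ 2 :=
                  mul_le_mul_of_nonneg_right this (by positivity)
              _ = _ := by ring
        _ ≤ (3 / 2 - ε / 2) * (m' : ℝ) ^ (2 / 3 : ℝ) :=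
            mul_le_mul_of_nonneg_left (h3.trans h2) h5

/-- the sharp lower bound for the size of a `4`-cycle-free subgraph -/
theorem upper_of (mbt : MBT) (lemR : SparseLemma) {ε : ℝ} (hε : 0 < ε) :
    ∃ m0 : ℕ, ∀ (n : ℕ) (G : SimpleGraph (Fin n)), m0 ≤ G.edgeSet.ncard →
      ∃ H ≤ G, (cycleGraph 4).Free H ∧
        (3 / 2 - ε) * (G.edgeSet.ncard : ℝ) ^ (2 / 3 : ℝ) ≤ (H.edgeSet.ncard : ℝ) := by
  obtain ⟨m0, h⟩ := upper_aux mbt lemR (ε := min ε 1) (lt_min hε one_pos) (min_le_right _ _)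
  refine ⟨m0, fun n G hm => ?_⟩
  obtain ⟨H, h1, h2, h3⟩ := h n G hm
  refine ⟨H, h1, h2, le_trans ?_ h3⟩
  refine mul_le_mul_of_nonneg_right ?_ (by positivity)
  have := min_le_left ε 1
  linarith

end Pool.Agent.InvC4
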