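import Mathlib
import Pool.Agent.InvC4.C4

set_option autoImplicit false

namespace Pool.Agent.InvC4

open Finset SimpleGraph

/-- the complete bipartite graph with parts `{x < a}` and `{a ≤ x}` -/
def bip (a b : ℕ) : SimpleGraph (Fin (a + b)) where
  Adj x y := (x.val < a ∧ a ≤ y.val) ∨ (y.val < a ∧ a ≤ x.val)
  symm := ⟨fun _ _ h => Or.symm h⟩
  loopless := ⟨fun _ h => by rcases h with h | h <;> omega⟩

theorem bip_edges (a b : ℕ) : (bip a b).edgeSet =
    Set.range (fun p : Fin a × Fin b => s(Fin.castAdd b p.1, Fin.natAdd a p.2)) := by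
  ext e
  induction e with
  | h x y =>
    rw [mem_edgeSet, Set.mem_range]
    constructor
    · rintro (⟨h1, h2⟩ | ⟨h1, h2⟩)
      · refine ⟨(⟨x, h1⟩, ⟨y - a, by omega⟩), ?_⟩
        congr 1
        ext
        simp only [Fin.natAdd_mk]
        omega
      · refine ⟨(⟨y, h1⟩, ⟨x - a, by omega⟩), ?_⟩
        rw [Sym2.eq_swap]
        congr 1
        ext
        simp only [Fin.natAdd_mk]
        omega
    · rintro ⟨⟨u, v⟩, h⟩
      rw [Sym2.eq_iff] at h
      rcases h with ⟨h1, h2⟩ | ⟨h1, h2⟩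
      · left
        rw [← h1, ← h2]
        simp
      · right
        rw [← h1, ← h2]
        simp

theorem edge_inj (a b : ℕ) : Function.Injective
    (fun p : Fin a × Fin b => s(Fin.castAdd b p.1, Fin.natAdd a p.2)) := by
  rintro ⟨u, v⟩ ⟨u', v'⟩ h
  simp only [Sym2.eq_iff] at h
  rcases h with ⟨h1, h2⟩ | ⟨h1, h2⟩
  · have e1 : u = u' := Fin.castAdd_injective a b h1
    have e2 : v = v' := Fin.natAdd_injective b a h2
    rw [e1, e2]
  · exfalso
    have := congrArg Fin.val h1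
    simp only [Fin.val_castAdd, Fin.val_natAdd] at this
    omega

theorem bip_card (a b : ℕ) : (bip a b).edgeSet.ncard = a * b := by
  rw [bip_edges, ← Set.image_univ, Set.ncard_image_of_injective _ (edge_inj a b), Set.ncard_univ,
    Nat.card_eq_fintype_card, Fintype.card_prod, Fintype.card_fin, Fintype.card_fin]

theorem le_choose (n : ℕ) : n ≤ 1 + n.choose 2 := by
  rcases n with _ | _ | n
  · simp
  · simp
  · have h1 : (n + 2).choose 2 = (n + 1).choose 1 + (n + 1).choose 2 := Nat.choose_succ_succ _ _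
    rw [h1, Nat.choose_one_right]
    omega

/-- a `4`-cycle-free subgraph of the complete bipartite graph has few edges -/
theorem bip_free_card (a b : ℕ) (H : SimpleGraph (Fin (a + b))) (hH : H ≤ bip a b)
    (hfree : (cycleGraph 4).Free H) : H.edgeSet.ncard ≤ b + a.choose 2 := by
  classical
  set N : Fin b → Finset (Fin a) := fun y => univ.filter fun x =>
    H.Adj (Fin.castAdd b x) (Fin.natAdd a y) with hN
  have h1 : H.edgeSet ⊆ ((univ.sigma N).image
      (fun p => s(Fin.castAdd b p.2, Fin.natAdd a p.1)) : Finset (Sym2 (Fin (a + b)))) := by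
    intro e he
    have he' : e ∈ (bip a b).edgeSet := edgeSet_mono hH he
    rw [bip_edges] at he'
    obtain ⟨⟨u, v⟩, rfl⟩ := he'
    rw [mem_coe, mem_image]
    refine ⟨⟨v, u⟩, ?_, rfl⟩
    rw [mem_sigma, hN, mem_filter]
    exact ⟨mem_univ _, mem_univ _, he⟩
  have h2 : H.edgeSet.ncard ≤ ∑ y, (N y).card := by
    refine (Set.ncard_le_ncard h1 (Set.toFinite _)).trans ?_
    rw [Set.ncard_coe_finset, ← card_sigma]
    exact card_image_le
  have h3 : ∑ y, (N y).card ≤ ∑ y, (1 + ((N y).powersetCard 2).card) := by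
    refine sum_le_sum fun y _ => ?_
    rw [card_powersetCard]
    exact le_choose _
  have h4 : ∑ y, ((N y).powersetCard 2).card ≤ a.choose 2 := by
    rw [← card_biUnion]
    · calc _ ≤ ((univ : Finset (Fin a)).powersetCard 2).card := card_le_card (by
            intro s hs
            rw [mem_biUnion] at hs
            obtain ⟨y, _, hy⟩ := hs
            exact powersetCard_mono (subset_univ _) hy)
        _ = a.choose 2 := by rw [card_powersetCard, card_univ, Fintype.card_fin]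
    · intro y _ y' _ hyy
      rw [Function.onFun, Finset.disjoint_left]
      intro s hs hs'
      rw [mem_powersetCard] at hs hs'
      obtain ⟨u, v, huv, rfl⟩ := card_eq_two.1 hs.2
      have hu := hs.1 (mem_insert_self _ _)
      have hv := hs.1 (mem_insert_of_mem (mem_singleton_self _))
      have hu' := hs'.1 (mem_insert_self _ _)
      have hv' := hs'.1 (mem_insert_of_mem (mem_singleton_self _))
      rw [hN, mem_filter] at hu hv hu' hv'
      exact of_free hfree _ _ _ _ (fun h => huv (Fin.castAdd_injective a b h))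
        (fun h => hyy (Fin.natAdd_injective b a h)) hu.2 hu'.2 hv.2 hv'.2
  rw [sum_add_distrib, sum_const, card_univ, Fintype.card_fin, smul_eq_mul, mul_one] at h3
  omega

/-- the numbers of edges of the finite graphs all of whose `4`-cycle-free subgraphs have fewer
than `k` edges -/
def sizes (k : ℕ) : Set ℕ :=
  {e | ∃ (n : ℕ) (G : SimpleGraph (Fin n)), G.edgeSet.ncard = e ∧
    ∀ H ≤ G, (cycleGraph 4).Free H → H.edgeSet.ncard < k}

theorem cube_mem_sizes {a k : ℕ} (ha : 1 ≤ a) (h : 3 * a ^ 2 ≤ 2 * k) : a ^ 3 ∈ sizes k := by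
  refine ⟨a + a ^ 2, bip a (a ^ 2), ?_, ?_⟩
  · rw [bip_card]; ring
  · intro H hH hfree
    have h1 := bip_free_card a (a ^ 2) H hH hfree
    have h2 : 2 * a.choose 2 = a * (a - 1) := by
      rw [Nat.choose_two_right]
      exact Nat.mul_div_cancel' (Nat.even_mul_pred_self a).two_dvd
    have h3 : a * (a - 1) + a = a ^ 2 := by
      obtain ⟨c, rfl⟩ := Nat.exists_eq_add_of_le ha
      simp only [Nat.add_sub_cancel_left]
      ring
    omega

/-- the upper bound in the form used below -/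
def UpperBd : Prop := ∀ ε : ℝ, 0 < ε → ∃ m0 : ℕ, ∀ (n : ℕ) (G : SimpleGraph (Fin n)),
  m0 ≤ G.edgeSet.ncard → ∃ H ≤ G, (cycleGraph 4).Free H ∧
    (3 / 2 - ε) * (G.edgeSet.ncard : ℝ) ^ (2 / 3 : ℝ) ≤ (H.edgeSet.ncard : ℝ)

theorem sizes_le (hU : UpperBd) {ε : ℝ} (hε : 0 < ε) (hε1 : ε ≤ 1) : ∃ m0 : ℕ, ∀ k : ℕ,
    ∀ e ∈ sizes k, (e : ℝ) ≤ max (m0 : ℝ) (Real.sqrt (k / (3 / 2 - ε)) ^ 3) := by
  obtain ⟨m0, h0⟩ := hU ε hε
  refine ⟨m0, fun k e he => ?_⟩
  obtain ⟨n, G, rfl, hG⟩ := he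
  by_cases hm : m0 ≤ G.edgeSet.ncard
  · refine le_trans ?_ (le_max_right _ _)
    obtain ⟨H, hH, hf, hc⟩ := h0 n G hm
    have h1 : (H.edgeSet.ncard : ℝ) ≤ k := by exact_mod_cast (hG H hH hf).le
    have hd : 0 < 3 / 2 - ε := by linarith
    set m : ℝ := (G.edgeSet.ncard : ℝ) with hmd
    have hm0 : 0 ≤ m := by rw [hmd]; positivity
    have h2 : m ^ (2 / 3 : ℝ) ≤ k / (3 / 2 - ε) := by
      rw [le_div_iff₀ hd]
      linarith
    have h3 : Real.sqrt (m ^ (2 / 3 : ℝ)) ≤ Real.sqrt (k / (3 / 2 - ε)) := Real.sqrt_le_sqrt h2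
    have h4 : Real.sqrt (m ^ (2 / 3 : ℝ)) ^ 3 = m := by
      rw [Real.sqrt_eq_rpow, ← Real.rpow_mul hm0, ← Real.rpow_natCast, ← Real.rpow_mul hm0]
      norm_num
    calc m = Real.sqrt (m ^ (2 / 3 : ℝ)) ^ 3 := h4.symm
      _ ≤ _ := pow_le_pow_left₀ (Real.sqrt_nonneg _) h3 3
  · push Not at hm
    exact le_trans (by exact_mod_cast hm.le) (le_max_left _ _)

theorem sizes_bdd (hU : UpperBd) (k : ℕ) : BddAbove (sizes k) := by
  obtain ⟨m0, h0⟩ := sizes_le hU (ε := 1) one_pos le_rfl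
  refine ⟨⌈max (m0 : ℝ) (Real.sqrt (k / (3 / 2 - 1)) ^ 3)⌉₊, fun e he => ?_⟩
  have := (h0 k e he).trans (Nat.le_ceil _)
  exact_mod_cast this

theorem sizes_nonempty {k : ℕ} (hk : 1 ≤ k) : (sizes k).Nonempty := by
  refine ⟨0, 0, ⊥, ?_, ?_⟩
  · simp
  · intro H hH _
    have : H = ⊥ := by
      rw [eq_bot_iff]; exact hH
    rw [this]
    simp
    omega

theorem limit_aux (hU : UpperBd) :
    Filter.Tendsto (fun k : ℕ => ((sSup (sizes k) : ℕ) : ℝ) / (k : ℝ) ^ (3 / 2 : ℝ))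
      Filter.atTop (nhds (2 * Real.sqrt 2 / (3 * Real.sqrt 3))) := by
  have hc : 2 * Real.sqrt 2 / (3 * Real.sqrt 3) = Real.sqrt (2 / 3) ^ 3 := by
    have h2 : Real.sqrt 2 ^ 2 = 2 := Real.sq_sqrt (by norm_num)
    have h3 : Real.sqrt 3 ^ 2 = 3 := Real.sq_sqrt (by norm_num)
    rw [Real.sqrt_div (by norm_num), div_pow, pow_succ (Real.sqrt 2), pow_succ (Real.sqrt 3),
      h2, h3]
  have hk3 : ∀ k : ℕ, (k : ℝ) ^ (3 / 2 : ℝ) = Real.sqrt k ^ 3 := by
    intro k
    rw [Real.sqrt_eq_rpow, ← Real.rpow_natCast, ← Real.rpow_mul (by positivity)]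
    norm_num
  have hsqt : Filter.Tendsto (fun k : ℕ => Real.sqrt (k : ℝ)) Filter.atTop Filter.atTop :=
    Real.tendsto_sqrt_atTop.comp tendsto_natCast_atTop_atTop
  rw [hc]
  simp only [hk3]
  rw [tendsto_order]
  constructor
  · -- the lower bound
    intro c' hc'
    have hlim : Filter.Tendsto (fun k : ℕ => (Real.sqrt (2 / 3) - (Real.sqrt (k : ℝ))⁻¹) ^ 3)
        Filter.atTop (nhds ((Real.sqrt (2 / 3) - 0) ^ 3)) :=
      (tendsto_const_nhds.sub hsqt.inv_tendsto_atTop).pow 3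
    rw [sub_zero] at hlim
    filter_upwards [hlim.eventually (lt_mem_nhds hc'), Filter.eventually_ge_atTop 6] with k hk hk6
    refine lt_of_lt_of_le hk ?_
    have hk0 : (0 : ℝ) < k := by
      have : 0 < k := by omega
      exact_mod_cast this
    have hs0 : 0 < Real.sqrt k := Real.sqrt_pos.2 hk0
    set a : ℕ := ⌊Real.sqrt (2 / 3 * k)⌋₊ with ha
    have ha1 : Real.sqrt (2 / 3 * k) - 1 ≤ a := by
      have := Nat.lt_floor_add_one (Real.sqrt (2 / 3 * k))
      linarith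
    have h6 : (6 : ℝ) ≤ k := by exact_mod_cast hk6
    have ha2 : 1 ≤ a := by
      rw [ha, Nat.one_le_floor_iff]
      rw [Real.one_le_sqrt]
      linarith
    have ha3 : 3 * a ^ 2 ≤ 2 * k := by
      have h1 : (a : ℝ) ≤ Real.sqrt (2 / 3 * k) := Nat.floor_le (Real.sqrt_nonneg _)
      have h2 : (a : ℝ) ^ 2 ≤ 2 / 3 * k := by
        have := pow_le_pow_left₀ (by positivity) h1 2
        rwa [Real.sq_sqrt (by positivity)] at this
      have h3 : (3 * a ^ 2 : ℝ) ≤ 2 * k := by linarith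
      exact_mod_cast h3
    have hmem := cube_mem_sizes ha2 ha3
    have hle : a ^ 3 ≤ sSup (sizes k) := le_csSup (sizes_bdd hU k) hmem
    have hle' : (a : ℝ) ^ 3 ≤ ((sSup (sizes k) : ℕ) : ℝ) := by exact_mod_cast hle
    rw [le_div_iff₀ (by positivity), ← mul_pow]
    refine le_trans ?_ hle'
    have h7 : (Real.sqrt (2 / 3) - (Real.sqrt (k : ℝ))⁻¹) * Real.sqrt k =
        Real.sqrt (2 / 3 * k) - 1 := by
      rw [Real.sqrt_mul (by norm_num), sub_mul, inv_mul_cancel₀ hs0.ne']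
    rw [h7]
    refine pow_le_pow_left₀ ?_ ha1 3
    have : 1 ≤ Real.sqrt (2 / 3 * k) := by
      rw [Real.one_le_sqrt]
      linarith
    linarith
  · -- the upper bound
    intro c' hc'
    have hcont : Filter.Tendsto (fun ε : ℝ => Real.sqrt (1 / (3 / 2 - ε)) ^ 3)
        (nhdsWithin 0 (Set.Ioi 0)) (nhds (Real.sqrt (2 / 3) ^ 3)) := by
      have h1 : ContinuousAt (fun ε : ℝ => Real.sqrt (1 / (3 / 2 - ε)) ^ 3) 0 := by
        refine ContinuousAt.pow (ContinuousAt.sqrt ?_) 3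
        refine ContinuousAt.div continuousAt_const (by fun_prop) (by norm_num)
      have h2 := h1.tendsto
      have h3 : (1 : ℝ) / (3 / 2 - 0) = 2 / 3 := by norm_num
      rw [h3] at h2
      exact h2.mono_left nhdsWithin_le_nhds
    have hev := hcont.eventually (gt_mem_nhds hc')
    have hev2 : ∀ᶠ ε : ℝ in nhdsWithin 0 (Set.Ioi 0), ε < 1 :=
      (gt_mem_nhds one_pos).filter_mono nhdsWithin_le_nhds
    obtain ⟨ε, ⟨hε1, hε2⟩, hε0⟩ := ((hev.and hev2).and self_mem_nhdsWithin).exists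
    have hε0 : 0 < ε := hε0
    obtain ⟨m0, h0⟩ := sizes_le hU hε0 hε2.le
    have hd : 0 < 3 / 2 - ε := by linarith
    have hpos : 0 < Real.sqrt (1 / (3 / 2 - ε)) ^ 3 :=
      pow_pos (Real.sqrt_pos.2 (by positivity)) 3
    have hbig : ∀ᶠ k : ℕ in Filter.atTop,
        (m0 : ℝ) / Real.sqrt (1 / (3 / 2 - ε)) ^ 3 ≤ Real.sqrt k ^ 3 :=
      ((Filter.tendsto_pow_atTop (by norm_num)).comp hsqt).eventually_ge_atTop _
    filter_upwards [hbig, Filter.eventually_ge_atTop 1] with k hk hk1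
    have hk0 : (0 : ℝ) < k := by exact_mod_cast hk1
    have hs0 : 0 < Real.sqrt k := Real.sqrt_pos.2 hk0
    refine lt_of_le_of_lt ?_ hε1
    rw [div_le_iff₀ (by positivity), ← mul_pow, ← Real.sqrt_mul (by positivity)]
    have hmem : sSup (sizes k) ∈ sizes k :=
      Nat.sSup_mem (sizes_nonempty hk1) (sizes_bdd hU k)
    refine (h0 k _ hmem).trans (max_le ?_ ?_)
    · rw [Real.sqrt_mul (by positivity), mul_pow]
      rwa [div_le_iff₀' hpos] at hk
    · rw [one_div_mul_eq_div]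

end Pool.Agent.InvC4
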