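import Mathlib

set_option autoImplicit false

namespace Pool.Agent.InvC4

open Finset

/-- Rounding a fractional matching in a weighted bipartite graph. -/
theorem exists_matching {I J : Type*} [Fintype I] [Fintype J] [DecidableEq I] [DecidableEq J]
    (w : I → J → ℝ) (g : I → J → ℝ) (hw : ∀ i j, 0 ≤ w i j)
    (hrow : ∀ i, ∑ j, w i j ≤ 1) (hcol : ∀ j, ∑ i, w i j ≤ 1) :
    ∃ φ : I → Option J, (∀ i i' j, φ i = some j → φ i' = some j → i = i') ∧
      (∀ i j, φ i = some j → 0 < w i j) ∧
      ∑ i, ∑ j, w i j * g i j ≤ ∑ i, (match φ i with | none => 0 | some j => g i j) := by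
  classical
  set M : Matrix (I ⊕ J) (I ⊕ J) ℝ := fun x y => match x, y with
    | Sum.inl i, Sum.inl i' => if i = i' then 1 - ∑ j, w i j else 0
    | Sum.inl i, Sum.inr j => w i j
    | Sum.inr j, Sum.inl i => w i j
    | Sum.inr j, Sum.inr j' => if j = j' then 1 - ∑ i, w i j else 0 with hM
  have hMd : M ∈ doublyStochastic ℝ (I ⊕ J) := by
    rw [mem_doublyStochastic_iff_sum]
    refine ⟨?_, ?_, ?_⟩
    · rintro (i | j) (i' | j')
      · simp only [hM]
        split_ifs
        · linarith [hrow i]
        · exact le_rfl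
      · exact hw _ _
      · exact hw _ _
      · simp only [hM]
        split_ifs
        · linarith [hcol j]
        · exact le_rfl
    · rintro (i | j)
      · rw [Fintype.sum_sum_type]
        simp only [hM]
        rw [Finset.sum_ite_eq, if_pos (mem_univ _)]
        ring
      · rw [Fintype.sum_sum_type]
        simp only [hM]
        rw [Finset.sum_ite_eq, if_pos (mem_univ _)]
        ring
    · rintro (i | j)
      · rw [Fintype.sum_sum_type]
        simp only [hM]
        rw [Finset.sum_ite_eq', if_pos (mem_univ _)]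
        ring
      · rw [Fintype.sum_sum_type]
        simp only [hM]
        rw [Finset.sum_ite_eq', if_pos (mem_univ _)]
        ring
  obtain ⟨θ, hθ0, hθ1, hθM⟩ := exists_eq_sum_perm_of_mem_doublyStochastic hMd
  -- value of a permutation
  set val : Equiv.Perm (I ⊕ J) → ℝ := fun σ => ∑ i, (match σ (Sum.inl i) with
    | Sum.inl _ => 0 | Sum.inr j => g i j) with hval
  have hentry : ∀ x y, M x y = ∑ σ : Equiv.Perm (I ⊕ J), θ σ * (if σ x = y then 1 else 0) := by
    intro x y
    rw [← hθM, Matrix.sum_apply]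
    refine sum_congr rfl fun σ _ => ?_
    rw [Matrix.smul_apply, Equiv.Perm.permMatrix, PEquiv.toMatrix_apply, smul_eq_mul]
    congr 1
    simp [Equiv.toPEquiv, eq_comm]
  have havg : ∑ σ, θ σ * val σ = ∑ i, ∑ j, w i j * g i j := by
    have e1 : ∀ i j, w i j = ∑ σ : Equiv.Perm (I ⊕ J),
        θ σ * (if σ (Sum.inl i) = Sum.inr j then 1 else 0) := fun i j => by
      rw [← hentry]
    have e2 : ∀ σ : Equiv.Perm (I ⊕ J), ∀ i, (match σ (Sum.inl i) with
        | Sum.inl _ => (0 : ℝ) | Sum.inr j => g i j) =
        ∑ j, (if σ (Sum.inl i) = Sum.inr j then 1 else 0) * g i j := by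
      intro σ i
      rcases hσ : σ (Sum.inl i) with i' | j'
      · simp
      · simp [Sum.inr.injEq]
    simp only [hval]
    calc ∑ σ, θ σ * ∑ i, (match σ (Sum.inl i) with
          | Sum.inl _ => (0 : ℝ) | Sum.inr j => g i j)
        = ∑ σ, ∑ i, ∑ j, θ σ * (if σ (Sum.inl i) = Sum.inr j then 1 else 0) * g i j := by
          refine sum_congr rfl fun σ _ => ?_
          rw [mul_sum]
          refine sum_congr rfl fun i _ => ?_
          rw [e2, mul_sum]
          refine sum_congr rfl fun j _ => by ring
      _ = ∑ i, ∑ j, w i j * g i j := by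
          rw [sum_comm]
          refine sum_congr rfl fun i _ => ?_
          rw [sum_comm]
          refine sum_congr rfl fun j _ => ?_
          rw [e1, sum_mul]
  obtain ⟨σ, hσpos, hσ⟩ : ∃ σ, 0 < θ σ ∧ ∑ i, ∑ j, w i j * g i j ≤ val σ := by
    by_contra hno
    push Not at hno
    have hex : ∃ σ, 0 < θ σ := by
      by_contra h
      push Not at h
      have : ∑ σ, θ σ ≤ 0 := sum_nonpos fun σ _ => h σ
      linarith
    obtain ⟨σ₀, hσ₀⟩ := hex
    have : ∑ σ, θ σ * val σ < ∑ σ, θ σ * ∑ i, ∑ j, w i j * g i j := by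
      refine sum_lt_sum (fun σ _ => ?_) ⟨σ₀, mem_univ _, ?_⟩
      · rcases eq_or_lt_of_le (hθ0 σ) with h | h
        · rw [← h]; simp
        · exact mul_le_mul_of_nonneg_left (hno σ h).le h.le
      · exact mul_lt_mul_of_pos_left (hno σ₀ hσ₀) hσ₀
    rw [← sum_mul, hθ1, one_mul, havg] at this
    exact lt_irrefl _ this
  refine ⟨fun i => match σ (Sum.inl i) with | Sum.inl _ => none | Sum.inr j => some j,
    ?_, ?_, ?_⟩
  · intro i i' j h h'
    rcases hi : σ (Sum.inl i) with a | a
    · simp [hi] at h
    · rcases hi' : σ (Sum.inl i') with a' | a'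
      · simp [hi'] at h'
      · simp only [hi, Option.some.injEq] at h
        simp only [hi', Option.some.injEq] at h'
        have : σ (Sum.inl i) = σ (Sum.inl i') := by rw [hi, hi', h, h']
        exact Sum.inl_injective (σ.injective this)
  · intro i j h
    rcases hi : σ (Sum.inl i) with a | a
    · simp [hi] at h
    · simp only [hi, Option.some.injEq] at h
      have hMij : w i j = ∑ σ : Equiv.Perm (I ⊕ J),
          θ σ * (if σ (Sum.inl i) = Sum.inr j then 1 else 0) := by rw [← hentry]
      rw [hMij]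
      refine lt_of_lt_of_le hσpos ?_
      have := single_le_sum (f := fun σ : Equiv.Perm (I ⊕ J) =>
        θ σ * (if σ (Sum.inl i) = Sum.inr j then 1 else 0)) (s := univ)
        (fun τ _ => mul_nonneg (hθ0 τ) (by split_ifs <;> norm_num)) (mem_univ σ)
      simpa [hi, h] using this
  · refine hσ.trans (le_of_eq ?_)
    simp only [hval]
    refine sum_congr rfl fun i _ => ?_
    rcases σ (Sum.inl i) with a | a <;> rfl

end Pool.Agent.InvC4
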