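import Mathlib
import Pool.Agent.InvC4.Avg
import Pool.Agent.InvC4.Graph

set_option autoImplicit false

namespace Pool.Agent.InvC4

open Finset SimpleGraph

/-- resampling one coordinate does not change the average -/
theorem avg_update {α Ω : Type*} [Fintype α] [DecidableEq α] [Fintype Ω] [Nonempty Ω] (a : α)
    (F : (α → Ω) → ℝ) : avg (fun f => avg (fun x => F (Function.update f a x))) = avg F := by
  have h1 : avg (fun f : α → Ω => avg (fun x => F (Function.update f a x))) =
      avg (fun x : Ω => avg (fun f : α → Ω => F (Function.update f a x))) := by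
    unfold avg
    rw [← sum_div, ← sum_div, sum_comm, div_div, div_div]
    congr 1
    ring
  -- reindex
  set e := Equiv.funSplitAt a Ω with he
  have h2 : avg F = avg (fun p : Ω × ({j // j ≠ a} → Ω) => F (e.symm p)) := by
    rw [avg_equiv e.symm]
  have h3 : ∀ x, avg (fun f : α → Ω => F (Function.update f a x)) =
      avg (fun g : {j // j ≠ a} → Ω => F (e.symm (x, g))) := by
    intro x
    have h4 : ∀ p : Ω × ({j // j ≠ a} → Ω),
        Function.update (e.symm p) a x = e.symm (x, p.2) := by
      intro p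
      funext j
      by_cases hj : j = a
      · subst hj
        rw [Function.update_self]
        simp [he, Equiv.funSplitAt, Equiv.piSplitAt]
      · rw [Function.update_of_ne hj]
        simp [he, Equiv.funSplitAt, Equiv.piSplitAt, hj]
    rw [← avg_equiv e.symm (fun f => F (Function.update f a x)), avg_prod]
    simp only [h4]
    exact avg_const _
  rw [h1, h2, avg_prod]
  congr 1
  funext x
  exact h3 x

section plane

/-- the incidence relation -/
def Rel (p : ℕ) (u v : ZMod p × ZMod p) : Prop := u.2 + v.2 = u.1 * v.1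

instance (p : ℕ) : DecidableRel (Rel p) := fun u v => by unfold Rel; infer_instance

theorem Rel.symm {p : ℕ} {u v : ZMod p × ZMod p} (h : Rel p u v) : Rel p v u := by
  unfold Rel at *
  rw [add_comm, h, mul_comm]

variable (p : ℕ) [hp : Fact p.Prime]

theorem rel_c4 {p : ℕ} [Fact p.Prime] {u w v z : ZMod p × ZMod p} (h1 : Rel p u v)
    (h2 : Rel p u z) (h3 : Rel p w v) (h4 : Rel p w z) : u = w ∨ v = z := by
  unfold Rel at *
  by_cases h : v.1 = z.1
  · right
    refine Prod.ext h ?_
    rw [h] at h1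
    exact add_left_cancel (h1.trans h2.symm)
  · left
    have h5 : (u.1 - w.1) * (v.1 - z.1) = 0 := by linear_combination -h1 + h2 + h3 - h4
    have h6 : u.1 = w.1 := by
      rcases mul_eq_zero.1 h5 with h7 | h7
      · exact sub_eq_zero.1 h7
      · exact absurd (sub_eq_zero.1 h7) h
    refine Prod.ext h6 ?_
    rw [h6] at h1
    exact add_right_cancel (h1.trans h3.symm)

theorem avg_rel (u : ZMod p × ZMod p) :
    avg (fun v : ZMod p × ZMod p => if Rel p u v then (1 : ℝ) else 0) = 1 / p := by
  rw [avg_prod]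
  have h1 : ∀ x : ZMod p, avg (fun y : ZMod p => if Rel p u (x, y) then (1 : ℝ) else 0) =
      1 / p := by
    intro x
    have h2 : ∀ y : ZMod p, (if Rel p u (x, y) then (1 : ℝ) else 0) =
        if y = u.1 * x - u.2 then 1 else 0 := by
      intro y
      by_cases h : y = u.1 * x - u.2
      · have hr : Rel p u (x, y) := by
          show u.2 + y = u.1 * x
          rw [h]; ring
        rw [if_pos h, if_pos hr]
      · rw [if_neg h, if_neg]
        intro h'
        apply h
        have h'' : u.2 + y = u.1 * x := h'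
        rw [← h'']; ring
    simp only [h2]
    unfold avg
    rw [sum_ite_eq', if_pos (mem_univ _), ZMod.card]
  simp only [h1]
  exact avg_const _

theorem avg_eq (u : ZMod p × ZMod p) :
    avg (fun v : ZMod p × ZMod p => if v = u then (1 : ℝ) else 0) = 1 / (p : ℝ) ^ 2 := by
  unfold avg
  rw [sum_ite_eq', if_pos (mem_univ _), Fintype.card_prod, ZMod.card]
  push_cast
  rw [sq]

end plane

section graph

variable {V : Type*} [Fintype V] [DecidableEq V] (G : SimpleGraph V) [DecidableRel G.Adj]
  (p : ℕ) [hp : Fact p.Prime]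

/-- the kept edges -/
def keep (χ : V → ZMod p × ZMod p) : SimpleGraph V where
  Adj u v := G.Adj u v ∧ Rel p (χ u) (χ v) ∧ (∀ w, G.Adj u w → w ≠ v → χ w ≠ χ v) ∧
    (∀ w, G.Adj v w → w ≠ u → χ w ≠ χ u)
  symm := ⟨fun _ _ h => ⟨h.1.symm, h.2.1.symm, h.2.2.2, h.2.2.1⟩⟩
  loopless := ⟨fun _ h => G.loopless.irrefl _ h.1⟩

omit [Fintype V] [DecidableEq V] [DecidableRel G.Adj] in
theorem keep_free (χ : V → ZMod p × ZMod p) : (cycleGraph 4).Free (keep G p χ) := by
  refine free_of ?_
  intro a b x y hab hxy hax hay hbx hby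
  rcases rel_c4 hax.2.1 hay.2.1 hbx.2.1 hby.2.1 with h | h
  · exact hax.2.2.2 b hbx.1.symm hab.symm h.symm
  · exact hax.2.2.1 y hay.1 hxy.symm h.symm

/-- probability of a conflict -/
theorem avg_conflict {u v w : V} (huv : u ≠ v) (hwu : w ≠ u) (hwv : w ≠ v) :
    avg (fun χ : V → ZMod p × ZMod p => if Rel p (χ u) (χ v) ∧ χ w = χ v then (1 : ℝ) else 0) =
      1 / (p : ℝ) ^ 3 := by
  rw [← avg_update w]
  have h1 : ∀ χ : V → ZMod p × ZMod p, avg (fun x => if Rel p (Function.update χ w x u)
      (Function.update χ w x v) ∧ Function.update χ w x w = Function.update χ w x v then (1 : ℝ)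
      else 0) = 1 / (p : ℝ) ^ 2 * (if Rel p (χ u) (χ v) then 1 else 0) := by
    intro χ
    simp only [Function.update_self, Function.update_of_ne hwu.symm,
      Function.update_of_ne hwv.symm]
    by_cases h : Rel p (χ u) (χ v)
    · simp only [h, true_and, if_true, mul_one]
      exact avg_eq p _
    · simp only [h, false_and, if_false, mul_zero]
      exact avg_const _
  simp only [h1]
  rw [avg_mul_left, ← avg_update v]
  have h2 : ∀ χ : V → ZMod p × ZMod p, avg (fun x => if Rel p (Function.update χ v x u)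
      (Function.update χ v x v) then (1 : ℝ) else 0) = 1 / p := by
    intro χ
    simp only [Function.update_self, Function.update_of_ne huv]
    exact avg_rel p _
  simp only [h2]
  rw [avg_const]
  have : (p : ℝ) ≠ 0 := by exact_mod_cast hp.out.ne_zero
  field_simp

theorem avg_rel_pair {u v : V} (huv : u ≠ v) :
    avg (fun χ : V → ZMod p × ZMod p => if Rel p (χ u) (χ v) then (1 : ℝ) else 0) = 1 / p := by
  rw [← avg_update v]
  have h2 : ∀ χ : V → ZMod p × ZMod p, avg (fun x => if Rel p (Function.update χ v x u)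
      (Function.update χ v x v) then (1 : ℝ) else 0) = 1 / p := by
    intro χ
    simp only [Function.update_self, Function.update_of_ne huv]
    exact avg_rel p _
  simp only [h2]
  exact avg_const _

open Classical in
/-- probability that an edge is kept -/
theorem avg_keep {D : ℕ} (hD : ∀ v, G.degree v ≤ D) {u v : V} (huv : G.Adj u v) :
    1 / (p : ℝ) - 2 * D / (p : ℝ) ^ 3 ≤
      avg (fun χ : V → ZMod p × ZMod p => if (keep G p χ).Adj u v then (1 : ℝ) else 0) := by
  have hne : u ≠ v := huv.ne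
  have h1 : ∀ χ : V → ZMod p × ZMod p, (if Rel p (χ u) (χ v) then (1 : ℝ) else 0) -
      (∑ w ∈ (G.neighborFinset u).erase v, (if Rel p (χ u) (χ v) ∧ χ w = χ v then (1 : ℝ) else 0)) -
      (∑ w ∈ (G.neighborFinset v).erase u, (if Rel p (χ v) (χ u) ∧ χ w = χ u then (1 : ℝ) else 0)) ≤
      (if (keep G p χ).Adj u v then (1 : ℝ) else 0) := by
    intro χ
    have hs1 : 0 ≤ ∑ w ∈ (G.neighborFinset u).erase v,
        (if Rel p (χ u) (χ v) ∧ χ w = χ v then (1 : ℝ) else 0) :=
      sum_nonneg fun w _ => by split_ifs <;> norm_num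
    have hs2 : 0 ≤ ∑ w ∈ (G.neighborFinset v).erase u,
        (if Rel p (χ v) (χ u) ∧ χ w = χ u then (1 : ℝ) else 0) :=
      sum_nonneg fun w _ => by split_ifs <;> norm_num
    by_cases hk : (keep G p χ).Adj u v
    · rw [if_pos hk, if_pos hk.2.1]
      linarith
    · rw [if_neg hk]
      by_cases hr : Rel p (χ u) (χ v)
      · rw [if_pos hr]
        have : (∃ w, G.Adj u w ∧ w ≠ v ∧ χ w = χ v) ∨ (∃ w, G.Adj v w ∧ w ≠ u ∧ χ w = χ u) := by
          by_contra hno
          push Not at hno
          exact hk ⟨huv, hr, hno.1, hno.2⟩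
        rcases this with ⟨w, hw1, hw2, hw3⟩ | ⟨w, hw1, hw2, hw3⟩
        · have h5 : (1 : ℝ) ≤ ∑ w ∈ (G.neighborFinset u).erase v,
              (if Rel p (χ u) (χ v) ∧ χ w = χ v then (1 : ℝ) else 0) := by
            refine le_trans (le_of_eq ?_) (single_le_sum (f := fun w =>
              (if Rel p (χ u) (χ v) ∧ χ w = χ v then (1 : ℝ) else 0))
              (fun w _ => by split_ifs <;> norm_num)
              (mem_erase.2 ⟨hw2, (G.mem_neighborFinset u w).2 hw1⟩))
            rw [if_pos ⟨hr, hw3⟩]
          linarith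
        · have h5 : (1 : ℝ) ≤ ∑ w ∈ (G.neighborFinset v).erase u,
              (if Rel p (χ v) (χ u) ∧ χ w = χ u then (1 : ℝ) else 0) := by
            refine le_trans (le_of_eq ?_) (single_le_sum (f := fun w =>
              (if Rel p (χ v) (χ u) ∧ χ w = χ u then (1 : ℝ) else 0))
              (fun w _ => by split_ifs <;> norm_num)
              (mem_erase.2 ⟨hw2, (G.mem_neighborFinset v w).2 hw1⟩))
            rw [if_pos ⟨hr.symm, hw3⟩]
          linarith
      · rw [if_neg hr]
        linarith
  refine le_trans ?_ (avg_le_avg h1)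
  rw [avg_sub, avg_sub, avg_sum, avg_sum, avg_rel_pair p hne]
  have h2 : ∀ w ∈ (G.neighborFinset u).erase v, avg (fun χ : V → ZMod p × ZMod p =>
      if Rel p (χ u) (χ v) ∧ χ w = χ v then (1 : ℝ) else 0) = 1 / (p : ℝ) ^ 3 := by
    intro w hw
    rw [mem_erase, mem_neighborFinset] at hw
    exact avg_conflict p hne hw.2.ne' hw.1
  have h3 : ∀ w ∈ (G.neighborFinset v).erase u, avg (fun χ : V → ZMod p × ZMod p =>
      if Rel p (χ v) (χ u) ∧ χ w = χ u then (1 : ℝ) else 0) = 1 / (p : ℝ) ^ 3 := by
    intro w hw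
    rw [mem_erase, mem_neighborFinset] at hw
    exact avg_conflict p hne.symm hw.2.ne' hw.1
  rw [sum_congr rfl h2, sum_congr rfl h3, sum_const, sum_const, nsmul_eq_mul, nsmul_eq_mul]
  have hp0 : (0 : ℝ) < p := by exact_mod_cast hp.out.pos
  have h4 : (((G.neighborFinset u).erase v).card : ℝ) ≤ D := by
    have : ((G.neighborFinset u).erase v).card ≤ D :=
      (card_le_card (erase_subset _ _)).trans (by rw [card_neighborFinset_eq_degree]; exact hD u)
    exact_mod_cast this
  have h5 : (((G.neighborFinset v).erase u).card : ℝ) ≤ D := by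
    have : ((G.neighborFinset v).erase u).card ≤ D :=
      (card_le_card (erase_subset _ _)).trans (by rw [card_neighborFinset_eq_degree]; exact hD v)
    exact_mod_cast this
  have h6 : (0 : ℝ) < 1 / (p : ℝ) ^ 3 := by positivity
  have h7 : 2 * (D : ℝ) / (p : ℝ) ^ 3 = D * (1 / (p : ℝ) ^ 3) + D * (1 / (p : ℝ) ^ 3) := by ring
  rw [h7]
  have h8 := mul_le_mul_of_nonneg_right h4 h6.le
  have h9 := mul_le_mul_of_nonneg_right h5 h6.le
  linarith

end graph

open Classical in
theorem sparse_aux {V : Type} [Fintype V] [DecidableEq V] (G : SimpleGraph V) [DecidableRel G.Adj]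
    {D p : ℕ} (hp : p.Prime) (hD : ∀ v, G.degree v ≤ D) (hpD : 4 * D ≤ p ^ 2) :
    ∃ H ≤ G, (cycleGraph 4).Free H ∧ (G.edgeFinset.card : ℝ) / (2 * p) ≤ (H.edgeSet.ncard : ℝ) := by
  have : Fact p.Prime := ⟨hp⟩
  -- number of kept edges
  set F : (V → ZMod p × ZMod p) → ℝ := fun χ => ((keep G p χ).edgeSet.ncard : ℝ) with hF
  have h1 : ∀ χ, ((keep G p χ).edgeSet.ncard : ℝ) =
      ∑ e ∈ G.edgeFinset, (if e ∈ (keep G p χ).edgeSet then (1 : ℝ) else 0) := by
    intro χ
    rw [← sum_filter, sum_const, nsmul_eq_mul, mul_one]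
    congr 1
    rw [← Set.ncard_coe_finset]
    congr 1
    ext e
    rw [mem_coe, mem_filter, mem_edgeFinset]
    constructor
    · intro h
      refine ⟨?_, h⟩
      induction e with
      | h x y => exact h.1
    · exact fun h => h.2
  have h2 : ∀ e ∈ G.edgeFinset, 1 / (2 * (p : ℝ)) ≤
      avg (fun χ : V → ZMod p × ZMod p => if e ∈ (keep G p χ).edgeSet then (1 : ℝ) else 0) := by
    intro e he
    induction e with
    | h x y =>
      rw [mem_edgeFinset, mem_edgeSet] at he
      have h3 := avg_keep G p hD he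
      simp only [mem_edgeSet]
      refine le_trans ?_ h3
      have hp0 : (0 : ℝ) < p := by exact_mod_cast hp.pos
      have h4 : (4 * D : ℝ) ≤ p ^ 2 := by exact_mod_cast hpD
      have h5 : 2 * (D : ℝ) / (p : ℝ) ^ 3 ≤ 1 / (2 * p) := by
        rw [div_le_div_iff₀ (by positivity) (by positivity)]
        nlinarith
      have h6 : 1 / (p : ℝ) = 1 / (2 * p) + 1 / (2 * p) := by field_simp; norm_num
      linarith
  have h3 : (G.edgeFinset.card : ℝ) / (2 * p) ≤ avg F := by
    rw [hF]
    simp only [h1]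
    rw [avg_sum]
    calc (G.edgeFinset.card : ℝ) / (2 * p) = ∑ e ∈ G.edgeFinset, 1 / (2 * (p : ℝ)) := by
          rw [sum_const, nsmul_eq_mul]; ring
      _ ≤ _ := sum_le_sum h2
  obtain ⟨χ, hχ⟩ := exists_le_avg (fun χ => -F χ)
  have h4 : avg (fun χ => -F χ) = -avg F := by
    have := avg_mul_left (-1) F
    simp only [neg_one_mul] at this
    exact this
  rw [h4] at hχ
  refine ⟨keep G p χ, fun x y h => h.1, keep_free G p χ, ?_⟩
  have : avg F ≤ F χ := by linarith
  exact h3.trans this

theorem sparseLemma : SparseLemma := by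
  intro V _ _ G _ D hD hdeg
  -- choose the prime
  set s : ℝ := Real.sqrt D with hs
  have hs1 : 1 ≤ s := by
    rw [hs, Real.one_le_sqrt]
    exact_mod_cast hD
  have hss : s ^ 2 = D := Real.sq_sqrt (by positivity)
  set n : ℕ := ⌈2 * s⌉₊ with hn
  have hn0 : n ≠ 0 := by
    rw [hn]
    exact (Nat.ceil_pos.2 (by linarith)).ne'
  obtain ⟨p, hp, hnp, hpn⟩ := Nat.exists_prime_lt_and_le_two_mul n hn0
  have h1 : 2 * s ≤ p := (Nat.le_ceil _).trans (by exact_mod_cast hnp.le)
  have h2 : (p : ℝ) ≤ 6 * s := by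
    have h3 : (n : ℝ) < 2 * s + 1 := Nat.ceil_lt_add_one (by linarith)
    have h4 : (p : ℝ) ≤ 2 * n := by exact_mod_cast hpn
    linarith
  have h3 : 4 * D ≤ p ^ 2 := by
    have : (4 * D : ℝ) ≤ (p : ℝ) ^ 2 := by
      rw [← hss]
      nlinarith
    exact_mod_cast this
  obtain ⟨H, hH, hf, hc⟩ := sparse_aux G hp hdeg h3
  refine ⟨H, hH, hf, le_trans ?_ hc⟩
  have hp0 : (0 : ℝ) < p := by exact_mod_cast hp.pos
  exact div_le_div_of_nonneg_left (by positivity) (by positivity) (by linarith)

end Pool.Agent.InvC4
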